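import Pool.Agent.Helper97.SPN.Ev.ON1
import Pool.Agent.Helper89.SPN.OI

set_option autoImplicit false

/-!
# The oriented chart, equivariant for the elements which commute or anticommute, for isometries of
finite order without eigenvalue `i`
-/

namespace Pool.Agent.Helper97.SPN

open MvPolynomial Matrix Pool.Agent.Helper14.RG Pool.Agent.Helper97.CG

universe u

theorem oi1_anti {k : Type u} [Field k] [IsAlgClosed k] [CharZero k] (hOT : ST_OT1 k)
    (hON : ST_ON1 k) (hOP : ST_OP1 k) (hOL : ST_OL1 k) (hGLC : ST_GLC k) (hNF1 : ST_NF1 k)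
    (n : Type) [Fintype n] [DecidableEq n] (J s E : Matrix n n k) (h : Proj s E)
    (hJ : IsForm 1 J) (hs : sᵀ * J * s = J) (N : ℕ) (hN : 0 < N) (hsN : s ^ N = 1)
    (hsE : s * E = E) (hfix : ∀ v : n → k, s *ᵥ v = v → E *ᵥ v = v)
    (hno : ∀ v : n → k, s *ᵥ (s *ᵥ v) = -v → v = 0)
    (hA : ∃ x : IsoG J, s * isoHom J x = -(isoHom J x * s)) : HC1 (isoHom J) s E h := by
  classical
  obtain ⟨x0, hx0⟩ := hA
  have h2k : (2 : k) ≠ 0 := two_ne_zero
  have hneg : (-1 : k) ≠ 1 := by
    intro h0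
    apply h2k
    linear_combination -h0
  let R : k → k → Prop := WellOrderingRel
  have R_asymm : ∀ a b, R a b → ¬ R b a := fun a b h h' => asymm h h'
  have R_tri : ∀ a b, ¬ R a b → ¬ R b a → a = b := by
    intro a b h h'
    rcases trichotomous_of (WellOrderingRel (α := k)) a b with h1 | h1 | h1
    · exact absurd h1 h
    · exact h1
    · exact absurd h1 h'
  let P : k → Prop := fun l => R (l ^ 2) (l ^ 2)⁻¹
  have hPas : ∀ l, P l → ¬ P l⁻¹ := by
    intro l h1 h2
    have h3 : R (l⁻¹ ^ 2) (l⁻¹ ^ 2)⁻¹ := h2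
    rw [inv_pow, inv_inv] at h3
    exact R_asymm _ _ h1 h3
  obtain ⟨e, w, u, v, χ, χw, Jw, h1, h2, hu, hv, hP, hPw, hJw, hχw⟩ :=
    hNF1 n 1 J s hJ hs N hN hsN P hPas
  have hS : Spl (fun a b : k => a = b ∨ a = -b) P := by
    refine ⟨?_, ?_, ?_, hPas⟩
    · rintro a b (h | h)
      · exact Or.inl h.symm
      · exact Or.inr (by rw [h, neg_neg])
    · rintro a b (rfl | rfl) h
      · exact h
      · have h' : R ((-b) ^ 2) ((-b) ^ 2)⁻¹ := h
        rwa [neg_sq] at h'
    · rintro a b (rfl | rfl)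
      · exact Or.inl rfl
      · exact Or.inr inv_neg
  have hE0 : ∀ x ∈ cmm (isoHom (LJ (Fin e) 1 Jw))
      (dg (diagonal χ) (diagonal fun i => (χ i)⁻¹) (diagonal χw)),
      ∀ i j, isoHom _ x i j ≠ 0 → (Lam χ χw i = Lam χ χw j ∨ Lam χ χw i = -Lam χ χw j) := by
    intro x hx i j hij
    rw [dg_diagonal] at hx
    rcases hx with hx | hx
    · left
      have h3 := diag_scal (Lam χ χw) (isoHom _ x) (c := 1) (by rw [one_smul]; exact hx) i j
      apply mul_right_cancel₀ hij
      rw [h3]; ring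
    · right
      have h3 := diag_scal (Lam χ χw) (isoHom _ x) (c := -1)
        (by rw [neg_one_smul]; exact hx) i j
      apply mul_right_cancel₀ hij
      rw [h3]; ring
  have hpm : ∀ j, χw j = 1 ∨ χw j = -1 := by
    intro j
    obtain ⟨p1, p2, p3⟩ := hPw j
    have p2' : ¬ R ((χw j)⁻¹ ^ 2) ((χw j)⁻¹ ^ 2)⁻¹ := p2
    rw [inv_pow, inv_inv] at p2'
    have p4 : (χw j) ^ 2 = ((χw j) ^ 2)⁻¹ := R_tri _ _ p1 p2'
    have p5 : (χw j) ^ 2 * (χw j) ^ 2 = 1 := by
      nth_rw 2 [p4]
      exact mul_inv_cancel₀ (pow_ne_zero 2 p3)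
    rcases mul_self_eq_one_iff.mp p5 with p6 | p6
    · exact mul_self_eq_one_iff.mp (by rw [← pow_two]; exact p6)
    · exfalso
      have e1 : v * s * u = diagonal (Lam χ χw) := by
        rw [hv, dg_diagonal]
        rfl
      let z : Fin e ⊕ (Fin e ⊕ Fin w) → k := Pi.single (Sum.inr (Sum.inr j)) 1
      have hz : (v * s * u) *ᵥ z = χw j • z := by
        rw [e1]
        funext l
        rw [mulVec_diagonal]
        by_cases hl : l = Sum.inr (Sum.inr j)
        · subst hl
          rfl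
        · show Lam χ χw l * (Pi.single (Sum.inr (Sum.inr j)) (1 : k) : _ → k) l = χw j *
            (Pi.single (Sum.inr (Sum.inr j)) (1 : k) : _ → k) l
          rw [Pi.single_eq_of_ne hl, mul_zero, mul_zero]
      have hsz : s *ᵥ (u *ᵥ z) = χw j • (u *ᵥ z) := by
        calc s *ᵥ (u *ᵥ z) = (u * v * s * u) *ᵥ z := by
              rw [h1, Matrix.one_mul, Matrix.mulVec_mulVec]
          _ = u *ᵥ ((v * s * u) *ᵥ z) := by
              rw [Matrix.mulVec_mulVec]; simp only [Matrix.mul_assoc]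
          _ = χw j • (u *ᵥ z) := by rw [hz, Matrix.mulVec_smul]
      have h0 := hno (u *ᵥ z) (by
        rw [hsz, Matrix.mulVec_smul, hsz, smul_smul, ← pow_two, p6, neg_one_smul])
      have h3 : z = 0 := by
        calc z = v *ᵥ (u *ᵥ z) := by rw [Matrix.mulVec_mulVec, h2, Matrix.one_mulVec]
          _ = 0 := by rw [h0, Matrix.mulVec_zero]
      have h4 := congrFun h3 (Sum.inr (Sum.inr j))
      have h5 : z (Sum.inr (Sum.inr j)) = 1 := Pi.single_eq_same _ _
      rw [h5] at h4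
      exact one_ne_zero h4
  have hanti : ∃ z : IsoG Jw, diagonal χw * isoHom Jw z = -(isoHom Jw z * diagonal χw) := by
    obtain ⟨y, hy⟩ := iso_push h1 h2 x0
    have hy1 : (v * s * u) * isoHom _ y = -(isoHom _ y * (v * s * u)) := by
      rw [hy]
      calc v * s * u * (v * isoHom J x0 * u) = v * s * (u * v) * isoHom J x0 * u := by
            simp only [Matrix.mul_assoc]
        _ = v * (s * isoHom J x0) * u := by
            rw [h1, Matrix.mul_one]; simp only [Matrix.mul_assoc]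
        _ = -(v * isoHom J x0 * s * u) := by
            rw [hx0, Matrix.mul_neg, Matrix.neg_mul]; simp only [Matrix.mul_assoc]
        _ = -(v * isoHom J x0 * (u * v) * s * u) := by rw [h1, Matrix.mul_one]
        _ = -(v * isoHom J x0 * u * (v * s * u)) := by simp only [Matrix.mul_assoc]
    rw [hv] at hy1
    revert y
    rw [hu]
    intro y _ hy1
    have hb := blk hS (fun i => (hP i).1) (fun j => ⟨(hPw j).1, (hPw j).2.1⟩) _
      (hE0 y (Or.inr hy1))
    obtain ⟨z, hz⟩ := third y hb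
    refine ⟨z, ?_⟩
    rw [hz]
    ext i j
    rw [dg_diagonal] at hy1
    have h3 := diag_scal (Lam χ χw) (isoHom _ y) (c := -1)
        (by rw [neg_one_smul]; exact hy1) (Sum.inr (Sum.inr i)) (Sum.inr (Sum.inr j))
    rw [Matrix.diagonal_mul, Matrix.neg_apply, Matrix.mul_diagonal]
    show χw i * isoHom _ y (Sum.inr (Sum.inr i)) (Sum.inr (Sum.inr j)) =
      -(isoHom _ y (Sum.inr (Sum.inr i)) (Sum.inr (Sum.inr j)) * χw j)
    rw [← neg_one_mul]
    exact h3
  have hχ1 : ∀ i, χ i ≠ 1 := by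
    intro i hi
    have h3 := (hP i).1
    rw [hi] at h3
    have h4 := hPas 1 h3
    rw [inv_one] at h4
    exact h4 h3
  have hχ1' : ∀ i, (χ i)⁻¹ ≠ 1 := by
    intro i hi
    exact hχ1 i (inv_eq_one.mp hi)
  obtain ⟨f, hf⟩ : ∃ f : k → k, f = fun l => if l = 1 then 1 else 0 := ⟨_, rfl⟩
  have hfi : ∀ l, f l * f l = f l := by
    intro l
    rw [hf]
    show (if l = 1 then (1 : k) else 0) * (if l = 1 then (1 : k) else 0) = if l = 1 then 1 else 0
    split_ifs
    · exact one_mul 1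
    · exact zero_mul 0
  have hfw : ∀ j, f (χw j) = (1 + χw j) / 2 := by
    intro j
    rw [hf]
    show (if χw j = 1 then (1 : k) else 0) = _
    rcases hpm j with hj | hj
    · rw [if_pos hj, hj, one_add_one_eq_two, div_self h2k]
    · rw [if_neg (by rw [hj]; exact hneg), hj, add_neg_cancel, zero_div]
  have hfχ : ∀ i, f (χ i) = 0 := by
    intro i
    rw [hf]
    exact if_neg (hχ1 i)
  have hfχ' : ∀ i, f (χ i)⁻¹ = 0 := by
    intro i
    rw [hf]
    exact if_neg (hχ1' i)
  obtain ⟨Ew, hEw⟩ : ∃ Ew : Matrix (Fin w) (Fin w) k, Ew = diagonal fun j => (1 + χw j) / 2 :=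
    ⟨_, rfl⟩
  -- the projection
  have hp1 := proj_conj h1 h2 h
  have hEu : v * E * u = dg 0 0 Ew := by
    have e1 : v * s * u = diagonal (Lam χ χw) := by
      rw [hv, dg_diagonal]
      rfl
    have e2 : Proj (diagonal (Lam χ χw)) (v * E * u) := by
      rw [← e1]
      exact hp1
    have e3 : diagonal (Lam χ χw) * (v * E * u) = v * E * u := by
      rw [← e1]
      calc v * s * u * (v * E * u) = v * s * (u * v) * E * u := by simp only [Matrix.mul_assoc]
        _ = v * (s * E) * u := by rw [h1, Matrix.mul_one]; simp only [Matrix.mul_assoc]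
        _ = v * E * u := by rw [hsE]
    have e4 : ∀ z : Fin e ⊕ (Fin e ⊕ Fin w) → k, diagonal (Lam χ χw) *ᵥ z = z →
        (v * E * u) *ᵥ z = z := by
      intro z hz
      rw [← e1] at hz
      have e5 : s *ᵥ (u *ᵥ z) = u *ᵥ z := by
        calc s *ᵥ (u *ᵥ z) = (u * v * s * u) *ᵥ z := by
              rw [h1, Matrix.one_mul, Matrix.mulVec_mulVec]
          _ = u *ᵥ ((v * s * u) *ᵥ z) := by
              rw [Matrix.mulVec_mulVec]; simp only [Matrix.mul_assoc]
          _ = u *ᵥ z := by rw [hz]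
      calc (v * E * u) *ᵥ z = v *ᵥ (E *ᵥ (u *ᵥ z)) := by
            rw [Matrix.mulVec_mulVec, Matrix.mulVec_mulVec]
        _ = v *ᵥ (u *ᵥ z) := by rw [hfix _ e5]
        _ = z := by rw [Matrix.mulVec_mulVec, h2, Matrix.one_mulVec]
    rw [proj_eq (Lam χ χw) (v * E * u) e2 e3 e4]
    have e6 : (fun i => if Lam χ χw i = 1 then (1 : k) else 0)
        = Sum.elim (fun _ => 0) (Sum.elim (fun _ => 0) fun j => (1 + χw j) / 2) := by
      funext i
      have e7 : (if Lam χ χw i = 1 then (1 : k) else 0) = f (Lam χ χw i) := by rw [hf]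
      rw [e7]
      rcases i with i | i | i
      · exact hfχ i
      · exact hfχ' i
      · exact hfw i
    rw [e6, ← dg_diagonal, Matrix.diagonal_zero, hEw]
  have hinv : ((diagonal χ : Matrix (Fin e) (Fin e) k)ᵀ)⁻¹ = diagonal fun i => (χ i)⁻¹ := by
    apply Matrix.inv_eq_right_inv
    rw [diagonal_transpose, diagonal_mul_diagonal]
    ext i j
    rw [Matrix.diagonal_apply, Matrix.one_apply]
    split_ifs with hij
    · exact mul_inv_cancel₀ (hP i).2
    · rfl
  have hdet : (diagonal χ : Matrix (Fin e) (Fin e) k).det ≠ 0 := by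
    rw [det_diagonal]
    exact Finset.prod_ne_zero_iff.mpr fun i _ => (hP i).2
  -- the oriented chart of the last block
  have hq2 : Proj (diagonal χw) Ew := by
    have e1 := proj_diag χw f fun i => hfi _
    have e2 : (fun i => f (χw i)) = fun j => (1 + χw j) / 2 := funext hfw
    rw [e2, ← hEw] at e1
    exact e1
  have hw : HC1 (isoHom Jw) (diagonal χw) Ew hq2 := by
    subst hEw
    exact hON w Jw χw hq2 hJw hχw hpm hanti
  have hq1 : Proj (fromBlocks (diagonal χ) 0 0 (diagonal χw)) (fromBlocks 0 0 0 Ew) := by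
    have e1 := proj_diag (Sum.elim χ χw) f fun i => hfi _
    have e2 : (fun i => f (Sum.elim χ χw i)) = Sum.elim (fun _ => 0) fun j => (1 + χw j) / 2 := by
      funext i
      rcases i with i | i
      · exact hfχ i
      · exact hfw i
    rw [e2, ← Matrix.fromBlocks_diagonal, ← Matrix.fromBlocks_diagonal, Matrix.diagonal_zero,
      ← hEw] at e1
    exact e1
  have hpr : HC1 (pHom (glHom (Fin e) k) (isoHom Jw)) (fromBlocks (diagonal χ) 0 0 (diagonal χw))
      (fromBlocks 0 0 0 Ew) hq1 :=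
    hOP _ _ (Fin e) (Fin w) (glHom (Fin e) k) (isoHom Jw) (diagonal χ) (diagonal χw) Ew hq2 hq1
      (hGLC e χ) hw
  have hmain : ∀ (J' s' E' : Matrix (Fin e ⊕ (Fin e ⊕ Fin w)) (Fin e ⊕ (Fin e ⊕ Fin w)) k)
      (h3 : Proj s' E'), J' = LJ (Fin e) 1 Jw →
      s' = dg (diagonal χ) ((diagonal χ)ᵀ)⁻¹ (diagonal χw) → E' = dg 0 0 Ew →
      HC1 (isoHom J') s' E' h3 := by
    intro J' s' E' h3 h4 h5 h6
    subst h4 h5 h6
    refine hOL e (Fin w) Jw hJw (diagonal χ) (diagonal χw) Ew hdet hχw ?_ hq1 h3 hpr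
    intro x hx
    rw [hinv] at hx
    exact blk hS (fun i => (hP i).1) (fun j => ⟨(hPw j).1, (hPw j).2.1⟩) _ (hE0 x hx)
  exact hOT n _ J s E u v h hp1 h1 h2 (hmain _ _ _ hp1 hu (by rw [hv, hinv]) hEu)

/-- OI1: the oriented chart with the swaps, for isometries without eigenvalue `i`. -/
def ST_OI1 (k : Type u) [Field k] : Prop := ∀ (n : Type) [Fintype n] [DecidableEq n]
  (J s E : Matrix n n k) (h : Proj s E), IsForm 1 J → sᵀ * J * s = J → ∀ N : ℕ, 0 < N →
  s ^ N = 1 → s * E = E → (∀ v : n → k, s *ᵥ v = v → E *ᵥ v = v) →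
  (∀ v : n → k, s *ᵥ (s *ᵥ v) = -v → v = 0) → HC1 (isoHom J) s E h

theorem st_OI1 {k : Type u} [Field k] [IsAlgClosed k] [CharZero k] (hOI : ST_OI k)
    (hOT : ST_OT1 k) (hON : ST_ON1 k) (hOP : ST_OP1 k) (hOL : ST_OL1 k) (hGLC : ST_GLC k)
    (hNF1 : ST_NF1 k) : ST_OI1 k := by
  intro n _ _ J s E h hJ hs N hN hsN hsE hfix hno
  by_cases hA : ∃ x : IsoG J, s * isoHom J x = -(isoHom J x * s)
  · exact oi1_anti hOT hON hOP hOL hGLC hNF1 n J s E h hJ hs N hN hsN hsE hfix hno hA
  · have h1 := hOI n J s E h hJ hs N hN hsN hsE hfix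
    have h2 : cmm (isoHom J) s = cm (isoHom J) s := by
      apply le_antisymm
      · rintro x (hx | hx)
        · exact hx
        · exact absurd ⟨x, hx⟩ hA
      · exact cm_le_cmm _ _
    unfold HC1
    rw [h2]
    exact h1

end Pool.Agent.Helper97.SPN
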