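import Pool.Agent.Helper97.SPN.Ctr
import Pool.Agent.Helper97.SPN.Ev.OI1

set_option autoImplicit false

/-!
# Spin covers: automorphisms whose order is not divisible by `4`, and the full centre
-/

namespace Pool.Agent.Helper97.SPN

open Matrix CliffordAlgebra Pool.Agent.Helper14.RG Pool.Agent.Helper97.CG
open Pool.Agent.Helper67.SPN

universe u

section Spin

variable {k : Type u} [Field k] [IsAlgClosed k] [CharZero k]

/-- elements over `1`, `-1` are central -/
lemma spin_center_of_rho {m : ℕ} (hm : 3 ≤ m) {z : SpinG (Fin m) k}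
    (hz : isoHom 1 (rho (Fin m) k z) = 1 ∨ isoHom 1 (rho (Fin m) k z) = -1) :
    z ∈ Subgroup.center (SpinG (Fin m) k) := by
  have hcov := isCov_spin (k := k) (m := m) (by omega)
  have hfin : Finite (zS (Fin m) k) := zS_finite (Fin m)
  refine Pool.Agent.Helper89.SPN.comm_of_fin hcov.irr hcov.rst
    (Pool.Agent.Helper89.SPN.lstable_of_grp hcov.grp) hcov.sep
    (W := (zS (Fin m) k : Set (SpinG (Fin m) k))) (Set.toFinite _) z fun t => ?_
  rw [SetLike.mem_coe, ← rho_ker, MonoidHom.mem_ker]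
  apply isoHom_inj 1
  have h1 : isoHom 1 (rho (Fin m) k t) * isoHom 1 (rho (Fin m) k t)⁻¹ = 1 := by
    rw [← map_mul, mul_inv_cancel, map_one]
  have h3 : isoHom 1 (rho (Fin m) k z) * isoHom 1 (rho (Fin m) k z)⁻¹ = 1 := by
    rw [← map_mul, mul_inv_cancel, map_one]
  simp only [map_mul, map_inv]
  rcases hz with h2 | h2
  · rw [h2, Matrix.one_mul] at h3
    rw [h2, h3, Matrix.one_mul, Matrix.mul_one, h1, map_one]
  · rw [h2, neg_mul, Matrix.one_mul] at h3
    have h4 : isoHom 1 (rho (Fin m) k z)⁻¹ = -1 := neg_eq_iff_eq_neg.mp h3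
    rw [h2, h4, neg_mul, Matrix.one_mul, neg_mul_neg, Matrix.mul_one, h1, map_one]

/-- an orthogonal matrix of finite order without eigenvalue `i` or without eigenvalue `1` -/
theorem hc1_orth (hOI1 : ST_OI1 k) (hII : ST_II k) {m : ℕ} {a : Matrix (Fin m) (Fin m) k}
    (ha : aᵀ * a = 1) (M : ℕ) (hM : 0 < M)
    (h : (a ^ M = 1 ∧ ¬ 4 ∣ M) ∨ a ^ M = -1 ∧ Even M) {E : Matrix (Fin m) (Fin m) k}
    (hE : Proj a E) (hE1 : a * E = E) (hE2 : ∀ v : Fin m → k, a *ᵥ v = v → E *ᵥ v = v) :
    HC1 (isoHom (1 : Matrix (Fin m) (Fin m) k)) a E hE := by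
  have hform : IsForm (1 : k) (1 : Matrix (Fin m) (Fin m) k) :=
    ⟨Or.inl rfl, by rw [transpose_one, one_smul], by rw [det_one]; exact one_ne_zero⟩
  rcases h with ⟨h1, h2⟩ | ⟨h1, -⟩
  · refine hOI1 (Fin m) 1 a E hE hform (by rw [Matrix.mul_one, ha]) M hM h1 hE1 hE2 ?_
    intro v hv
    have h3 : a *ᵥ (a *ᵥ (a *ᵥ (a *ᵥ v))) = v := by
      rw [hv, mulVec_neg, mulVec_neg, hv, neg_neg]
    have h4 : ∀ j : ℕ, (a ^ (4 * j)) *ᵥ v = v := by
      intro j
      induction j with
      | zero => rw [mul_zero, pow_zero, one_mulVec]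
      | succ j ih =>
        have e : a ^ (4 * (j + 1)) = a ^ (4 * j) * (a * (a * (a * a))) := by
          rw [mul_add, mul_one, pow_add]
          congr 1
          rw [pow_succ, pow_succ, pow_succ, pow_one]
          simp only [Matrix.mul_assoc]
        rw [e, ← mulVec_mulVec, ← mulVec_mulVec, ← mulVec_mulVec, ← mulVec_mulVec, h3, ih]
    have h5 : a ^ (M % 4) *ᵥ v = v := by
      have h6 : a ^ M = a ^ (M % 4) * a ^ (4 * (M / 4)) := by
        rw [← pow_add, Nat.mod_add_div]
      have h7 := congrArg (fun x => x *ᵥ v) h1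
      simp only [h6, one_mulVec, ← mulVec_mulVec, h4] at h7
      exact h7
    have h6 : a *ᵥ (a *ᵥ v) = v := by
      have h7 : M % 4 = 1 ∨ M % 4 = 2 ∨ M % 4 = 3 := by omega
      rcases h7 with h7 | h7 | h7
      · rw [h7, pow_one] at h5
        rw [h5, h5]
      · rw [h7, pow_two, ← mulVec_mulVec] at h5
        exact h5
      · rw [h7, pow_succ, pow_two, ← mulVec_mulVec, ← mulVec_mulVec] at h5
        rw [h5] at h3
        rw [h3]
        exact h3
    rw [hv] at h6
    have h7 : (2 : k) • v = 0 := by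
      rw [two_smul]
      nth_rewrite 1 [← h6]
      exact neg_add_cancel v
    exact (smul_eq_zero.mp h7).resolve_left two_ne_zero
  · -- no eigenvalue `1`
    have h2 : ∀ j : ℕ, a ^ j * E = E := by
      intro j
      induction j with
      | zero => rw [pow_zero, Matrix.one_mul]
      | succ j ih => rw [pow_succ, Matrix.mul_assoc, hE1, ih]
    have h3 : E = 0 := by
      have h4 := h2 M
      rw [h1, neg_mul, Matrix.one_mul] at h4
      have h7 : (2 : k) • E = 0 := by
        rw [two_smul]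
        nth_rewrite 1 [← h4]
        exact neg_add_cancel E
      exact (smul_eq_zero.mp h7).resolve_left two_ne_zero
    subst h3
    have h4 : cm0 (isoHom (1 : Matrix (Fin m) (Fin m) k)) a 0 hE = cm (isoHom 1) a := by
      apply le_antisymm (cm0_le _ _ _ _)
      intro x hx
      rw [mem_cm0]
      exact ⟨hx, by rw [Matrix.mul_zero, zero_add, sub_zero, det_one]⟩
    unfold HC1
    rw [h4]
    refine hII (Fin m) 1 1 a hform (by rw [Matrix.mul_one, ha]) (2 * M) (by omega) ?_
    rw [two_mul, pow_add, h1, neg_mul_neg, Matrix.mul_one]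

/-- The chart of a spin group for an automorphism whose order modulo the centre is not divisible
by `4`. -/
theorem chart_sp_four (hOI1 : ST_OI1 k) (hII : ST_II k) (hFIX : ST_FIX k) {m : ℕ} (hm : 3 ≤ m)
    {T : SpinG (Fin m) k ≃* SpinG (Fin m) k}
    (τ : IsoG (1 : Matrix (Fin m) (Fin m) k) ≃* IsoG (1 : Matrix (Fin m) (Fin m) k))
    (hτ : IsStdIso τ) (hT : ∀ x, rho (Fin m) k (T x) = τ (rho (Fin m) k x))
    (hreg : ∀ a ∈ sAlg (Fin m) k, (fun x => a (T x)) ∈ sAlg (Fin m) k) (M : ℕ) (hM : 0 < M)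
    (h4M : ¬ 4 ∣ M)
    (hfin : ∀ x, ∃ z ∈ Subgroup.center (SpinG (Fin m) k), T^[M] x = z * x)
    (H' : Subgroup (SpinG (Fin m) k))
    (hH' : ∀ g, g ∈ H' ↔ ∃ z ∈ Subgroup.center (SpinG (Fin m) k), T g = z * g) :
    HasLChart (sAlg (Fin m) k) (fixSub T) H' := by
  have hcov := isCov_spin (k := k) (m := m) (by omega)
  have := spin_center_finite (k := k) hm
  have hid : ∀ x, T^[M] x = x := by
    refine eq_of_mod hcov.irr hcov.grp hcov.sep (f := T^[M]) ?_ ?_ hfin
    · have h1 : ∀ (j : ℕ), ∀ a ∈ sAlg (Fin m) k, (fun x => a (T^[j] x)) ∈ sAlg (Fin m) k := by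
        intro j
        induction j with
        | zero => intro a ha; exact ha
        | succ j ih =>
          intro a ha
          have h2 := hreg _ (ih a ha)
          exact h2
      exact h1 M
    · have h1 : ∀ j : ℕ, T^[j] 1 = 1 := by
        intro j
        induction j with
        | zero => rfl
        | succ j ih => rw [Function.iterate_succ_apply, map_one, ih]
      exact h1 M
  have hf : FormFacts (1 : Matrix (Fin m) (Fin m) k) := facts_one hm
  obtain ⟨a, ha, ha', h1, hcase⟩ : ∃ a : Matrix (Fin m) (Fin m) k, ∃ _ : aᵀ * a = 1,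
      ∃ _ : a * aᵀ = 1, (∀ g, isoHom 1 (τ g) = a * isoHom 1 g * aᵀ) ∧
      ((a ^ M = 1 ∧ ¬ 4 ∣ M) ∨ a ^ M = -1 ∧ Even M) := by
    obtain ⟨a, ha, ha', h1⟩ := std_orth hf (by omega) hτ
    have h3 : ∀ (j : ℕ) (x : SpinG (Fin m) k),
        isoHom 1 (rho (Fin m) k (T^[j] x)) * a ^ j = a ^ j * isoHom 1 (rho (Fin m) k x) := by
      intro j
      induction j with
      | zero => intro x; rw [pow_zero, Matrix.mul_one, Matrix.one_mul]; rfl
      | succ j ih =>
        intro x
        have h4 : isoHom 1 (rho (Fin m) k (T x)) * a = a * isoHom 1 (rho (Fin m) k x) := by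
          rw [hT, h1, Matrix.mul_assoc, ha, Matrix.mul_one]
        rw [Function.iterate_succ_apply]
        calc isoHom 1 (rho (Fin m) k (T^[j] (T x))) * a ^ (j + 1)
            = isoHom 1 (rho (Fin m) k (T^[j] (T x))) * a ^ j * a := by
              rw [pow_succ, Matrix.mul_assoc]
          _ = a ^ j * (isoHom 1 (rho (Fin m) k (T x)) * a) := by rw [ih, Matrix.mul_assoc]
          _ = a ^ (j + 1) * isoHom 1 (rho (Fin m) k x) := by
              rw [h4, pow_succ, Matrix.mul_assoc]
    have h4 : ∀ g : IsoG (1 : Matrix (Fin m) (Fin m) k),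
        a ^ M * isoHom 1 g = isoHom 1 g * a ^ M := by
      intro g
      obtain ⟨x, rfl⟩ := rho_surjective (k := k) (n := Fin m) g
      rw [← h3 M x, hid]
    obtain ⟨c, hc⟩ := hf.comm _ h4
    have h5 : (a ^ M)ᵀ * a ^ M = 1 := by
      have h6 : ∀ j : ℕ, (a ^ j)ᵀ * a ^ j = 1 := by
        intro j
        induction j with
        | zero => rw [pow_zero, transpose_one, Matrix.mul_one]
        | succ j ih =>
          calc (a ^ (j + 1))ᵀ * a ^ (j + 1) = aᵀ * ((a ^ j)ᵀ * a ^ j) * a := by
                rw [pow_succ, transpose_mul]; simp only [Matrix.mul_assoc]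
            _ = 1 := by rw [ih, Matrix.mul_one, ha]
      exact h6 M
    have h6 : a ^ M = 1 ∨ a ^ M = -1 := by
      rw [hc, transpose_smul, transpose_one, Matrix.smul_mul, Matrix.mul_smul, Matrix.mul_one,
        smul_smul] at h5
      have h7 := congrFun (congrFun h5 ⟨0, by omega⟩) ⟨0, by omega⟩
      rw [Matrix.smul_apply, Matrix.one_apply_eq, smul_eq_mul, mul_one] at h7
      rcases mul_self_eq_one_iff.mp h7 with h8 | h8
      · left; rw [hc, h8, one_smul]
      · right; rw [hc, h8, neg_one_smul]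
    rcases h6 with h6 | h6
    · exact ⟨a, ha, ha', h1, Or.inl ⟨h6, h4M⟩⟩
    · rcases Nat.even_or_odd M with he | ho
      · exact ⟨a, ha, ha', h1, Or.inr ⟨h6, he⟩⟩
      · refine ⟨-a, ?_, ?_, ?_, Or.inl ⟨?_, h4M⟩⟩
        · rw [transpose_neg, neg_mul_neg, ha]
        · rw [transpose_neg, neg_mul_neg, ha']
        · intro g
          rw [h1, transpose_neg, neg_mul, neg_mul, mul_neg, neg_neg]
        · rw [ho.neg_pow, h6, neg_neg]
  have h2 : ∀ x, rho (Fin m) k (Ta a ha ha' x) = τ (rho (Fin m) k x) := by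
    intro x
    apply isoHom_inj 1
    exact (rho_Ta a ha ha' x).trans (h1 (rho (Fin m) k x)).symm
  have hTa : ∀ x, T x = Ta a ha ha' x := spin_aut_unique (by omega) hreg
    (fun f hf => Ta_reg a ha ha' hf) (fun x => (hT x).trans (h2 x).symm)
  have h6 : a ^ (2 * M) = 1 := by
    rw [two_mul, pow_add]
    rcases hcase with ⟨h, -⟩ | ⟨h, -⟩
    · rw [h, Matrix.mul_one]
    · rw [h, neg_mul_neg, Matrix.mul_one]
  obtain ⟨E, hE, hE1, hE2⟩ := exists_eig a (2 * M) (by omega) h6
  have h7 : HC1 (isoHom (1 : Matrix (Fin m) (Fin m) k)) a E hE :=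
    hc1_orth hOI1 hII ha M hM hcase hE hE1 hE2
  have h8 := HasLChart.comap (rho (Fin m) k) rho_surjective (fun f hf => rho_reg hf) h7
  have e1 : fixSub T = (cm0 (isoHom 1) a E hE).comap (rho (Fin m) k) := by
    ext g
    rw [Subgroup.mem_comap, ← hFIX m a E ha ha' hE (2 * M) (by omega) h6 hE1 hE2 g, ← hTa]
    rfl
  have e2 : H' = (cmm (isoHom 1) a).comap (rho (Fin m) k) := by
    ext g
    rw [hH', Subgroup.mem_comap]
    have h9 : isoHom 1 (rho (Fin m) k (T g)) * a = a * isoHom 1 (rho (Fin m) k g) := by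
      rw [hT, h1, Matrix.mul_assoc, ha, Matrix.mul_one]
    constructor
    · rintro ⟨z, hz, e⟩
      rw [e, map_mul, map_mul] at h9
      rcases spin_center_rho hm hz with h10 | h10
      · left
        rw [h10, Matrix.one_mul] at h9
        exact h9.symm
      · right
        rw [h10, neg_mul, neg_mul, Matrix.one_mul] at h9
        exact h9.symm
    · intro hg
      refine ⟨T g * g⁻¹, ?_, by rw [inv_mul_cancel_right]⟩
      apply spin_center_of_rho hm
      have h10 : isoHom 1 (rho (Fin m) k g) * isoHom 1 (rho (Fin m) k g)⁻¹ = 1 := by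
        rw [← map_mul, mul_inv_cancel, map_one]
      have h11 : isoHom 1 (rho (Fin m) k (T g)) = a * isoHom 1 (rho (Fin m) k g) * aᵀ := by
        rw [hT, h1]
      rw [map_mul, map_mul, map_inv, h11]
      rcases hg with hg | hg
      · left
        rw [hg, Matrix.mul_assoc _ a, ha', Matrix.mul_one, h10]
      · right
        rw [hg, neg_mul, neg_mul, Matrix.mul_assoc _ a, ha', Matrix.mul_one, h10]
  rw [e1, e2]
  exact h8

end Spin

end Pool.Agent.Helper97.SPN
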