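import Pool.Agent.Helper97.SPN.Fct5
import Pool.Agent.Helper97.SPN.Ev.Ctr2

set_option autoImplicit false

/-!
# Spin covers: central subgroups for automorphisms whose order is not divisible by `4`
-/

namespace Pool.Agent.Helper97.SPN

open Matrix CliffordAlgebra Pool.Agent.Helper14.RG Pool.Agent.Helper97.CG
open Pool.Agent.Helper67.SPN

universe u

variable {k : Type u} [Field k] [IsAlgClosed k] [CharZero k]

/-- the centres of all factors, for orders which are not divisible by `4` -/
noncomputable def cs3 (hOI : ST_OI k) (hOI1 : ST_OI1 k) (hII : ST_II k) (hFIX : ST_FIX k)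
    (hCCC : ST_CCC k) (M : ℕ) (hM : 0 < M) (h4 : ¬ 4 ∣ M) : CS k M where
  cen := fun F => Subgroup.center F.Grp
  le := fun _ => le_refl _
  fin := by
    intro F h
    cases F with
    | cl n J => exact h.fincen
    | sp m => exact spin_center_finite (m := m) h
  mem := fun _ _ f _ x => mem_center_iso f x
  chart := by
    intro F h T hT hfin H' hH'
    cases F with
    | cl n J => exact h.chart hOI hFIX hT M hM hfin H' hH'
    | sp m =>
      obtain ⟨τ, hτ, h1⟩ := hT.std
      exact chart_sp_four hOI1 hII hFIX (m := m) h τ hτ h1 hT.reg M hM h4 hfin H' hH'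
  cc := by
    intro F h
    cases F with
    | cl n J => exact h.cc
    | sp m => exact hCCC m h
  cl := fun _ _ => rfl

end Pool.Agent.Helper97.SPN
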