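import Pool.Agent.Helper97.SPN.Ev.OW1
import Pool.Agent.Helper89.SPN.ON
import Pool.Agent.Helper89.SPN.OI

set_option autoImplicit false

/-!
# Oriented charts with the swap: eigenvalues `1` and `-1`
-/

namespace Pool.Agent.Helper97.SPN

open MvPolynomial Matrix Pool.Agent.Helper14.RG Pool.Agent.Helper97.CG

universe u

lemma on1_aux {k : Type u} [Field k] [IsAlgClosed k] [CharZero k] (hOW : ST_OW1 k)
    (hOT : ST_OT1 k) {w p q : ℕ} (hpq : p = q) (Jw : Matrix (Fin w) (Fin w) k) (χ : Fin w → k)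
    (e : Fin p ⊕ Fin q ≃ Fin w) (hl : ∀ i, χ (e (Sum.inl i)) = 1)
    (hr : ∀ i, χ (e (Sum.inr i)) = -1) (hJ : IsForm 1 Jw)
    (hχJ : (diagonal χ)ᵀ * Jw * diagonal χ = Jw)
    (h : Proj (diagonal χ) (diagonal fun j => (1 + χ j) / 2)) :
    HC1 (isoHom Jw) (diagonal χ) (diagonal fun j => (1 + χ j) / 2) h := by
  classical
  subst hpq
  obtain ⟨E, hEd⟩ : ∃ E : Matrix (Fin w) (Fin w) k, E = diagonal fun j => (1 + χ j) / 2 := ⟨_, rfl⟩
  have h2k : (2 : k) ≠ 0 := two_ne_zero
  let u : Matrix (Fin w) (Fin p ⊕ Fin p) k := (1 : Matrix (Fin w) (Fin w) k).submatrix id e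
  let v : Matrix (Fin p ⊕ Fin p) (Fin w) k := (1 : Matrix (Fin w) (Fin w) k).submatrix e id
  have huv : u * v = 1 := by
    show (1 : Matrix (Fin w) (Fin w) k).submatrix id e *
      (1 : Matrix (Fin w) (Fin w) k).submatrix e id = 1
    rw [Matrix.submatrix_mul_equiv, Matrix.one_mul, Matrix.submatrix_id_id]
  have hmul : ∀ M : Matrix (Fin w) (Fin w) k, v * M * u = M.submatrix e e := by
    intro M
    ext i j
    have h1 : ∀ (i : Fin p ⊕ Fin p) (l : Fin w), (v * M) i l = M (e i) l := by
      intro i l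
      rw [Matrix.mul_apply, Finset.sum_eq_single (e i)]
      · show (1 : Matrix (Fin w) (Fin w) k) (e i) (e i) * M (e i) l = _
        rw [Matrix.one_apply_eq, one_mul]
      · intro b _ hb
        show (1 : Matrix (Fin w) (Fin w) k) (e i) b * M b l = _
        rw [Matrix.one_apply_ne (Ne.symm hb), zero_mul]
      · intro h
        exact absurd (Finset.mem_univ _) h
    rw [Matrix.mul_apply, Finset.sum_eq_single (e j)]
    · rw [h1]
      show M (e i) (e j) * (1 : Matrix (Fin w) (Fin w) k) (e j) (e j) = M (e i) (e j)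
      rw [Matrix.one_apply_eq, mul_one]
    · intro b _ hb
      show (v * M) i b * (1 : Matrix (Fin w) (Fin w) k) b (e j) = _
      rw [Matrix.one_apply_ne hb, mul_zero]
    · intro h
      exact absurd (Finset.mem_univ _) h
  have hvu : v * u = 1 := by
    have h1 := hmul 1
    rw [Matrix.mul_one] at h1
    rw [h1]
    exact Matrix.submatrix_one_equiv e
  have huT : uᵀ = v := by
    show ((1 : Matrix (Fin w) (Fin w) k).submatrix id e)ᵀ = _
    rw [Matrix.transpose_submatrix, Matrix.transpose_one]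
  have hent : ∀ i j, χ i * Jw i j * χ j = Jw i j := by
    intro i j
    have h1 := congrFun (congrFun hχJ i) j
    rw [Matrix.mul_diagonal, Matrix.diagonal_transpose, Matrix.diagonal_mul] at h1
    exact h1
  let Jp : Matrix (Fin p) (Fin p) k := Jw.submatrix (e ∘ Sum.inl) (e ∘ Sum.inl)
  let Jq : Matrix (Fin p) (Fin p) k := Jw.submatrix (e ∘ Sum.inr) (e ∘ Sum.inr)
  have hJe : Jw.submatrix e e = fromBlocks Jp 0 0 Jq := by
    ext i j
    rcases i with i | i <;> rcases j with j | j
    · rfl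
    · have h1 := hent (e (Sum.inl i)) (e (Sum.inr j))
      rw [hl, hr] at h1
      have h2 : 2 * Jw (e (Sum.inl i)) (e (Sum.inr j)) = 0 := by linear_combination -h1
      exact (mul_eq_zero.mp h2).resolve_left h2k
    · have h1 := hent (e (Sum.inr i)) (e (Sum.inl j))
      rw [hl, hr] at h1
      have h2 : 2 * Jw (e (Sum.inr i)) (e (Sum.inl j)) = 0 := by linear_combination -h1
      exact (mul_eq_zero.mp h2).resolve_left h2k
    · rfl
  have hse : (diagonal χ).submatrix e e
      = (fromBlocks 1 0 0 (-1) : Matrix (Fin p ⊕ Fin p) (Fin p ⊕ Fin p) k) := by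
    rw [Matrix.submatrix_diagonal_equiv]
    ext i j
    rcases i with i | i <;> rcases j with j | j
    · rw [fromBlocks_apply₁₁]
      by_cases hij : i = j
      · subst hij
        rw [diagonal_apply_eq, Matrix.one_apply_eq]
        exact hl i
      · rw [diagonal_apply_ne _ (fun h => hij (Sum.inl_injective h)), Matrix.one_apply_ne hij]
    · rw [fromBlocks_apply₁₂, diagonal_apply_ne _ Sum.inl_ne_inr, Matrix.zero_apply]
    · rw [fromBlocks_apply₂₁, diagonal_apply_ne _ Sum.inr_ne_inl, Matrix.zero_apply]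
    · rw [fromBlocks_apply₂₂]
      by_cases hij : i = j
      · subst hij
        rw [diagonal_apply_eq, Matrix.neg_apply, Matrix.one_apply_eq]
        exact hr i
      · rw [diagonal_apply_ne _ (fun h => hij (Sum.inr_injective h)), Matrix.neg_apply,
          Matrix.one_apply_ne hij, neg_zero]
  have hEe : E.submatrix e e
      = (fromBlocks 1 0 0 0 : Matrix (Fin p ⊕ Fin p) (Fin p ⊕ Fin p) k) := by
    rw [hEd, Matrix.submatrix_diagonal_equiv]
    ext i j
    rcases i with i | i <;> rcases j with j | j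
    · rw [fromBlocks_apply₁₁]
      by_cases hij : i = j
      · subst hij
        rw [diagonal_apply_eq, Matrix.one_apply_eq]
        show (1 + χ (e (Sum.inl i))) / 2 = 1
        rw [hl, one_add_one_eq_two, div_self h2k]
      · rw [diagonal_apply_ne _ (fun h => hij (Sum.inl_injective h)), Matrix.one_apply_ne hij]
    · rw [fromBlocks_apply₁₂, diagonal_apply_ne _ Sum.inl_ne_inr, Matrix.zero_apply]
    · rw [fromBlocks_apply₂₁, diagonal_apply_ne _ Sum.inr_ne_inl, Matrix.zero_apply]
    · rw [fromBlocks_apply₂₂, Matrix.zero_apply]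
      by_cases hij : i = j
      · subst hij
        rw [diagonal_apply_eq]
        show (1 + χ (e (Sum.inr i))) / 2 = 0
        rw [hr, add_neg_cancel, zero_div]
      · rw [diagonal_apply_ne _ (fun h => hij (Sum.inr_injective h))]
  have hdet : Jp.det * Jq.det ≠ 0 := by
    rw [← Matrix.det_fromBlocks_zero₂₁, ← hJe, Matrix.det_submatrix_equiv_self]
    exact hJ.det_ne
  have hsym : ∀ i j, Jw j i = 1 * Jw i j := by
    intro i j
    exact congrFun (congrFun hJ.symm i) j
  have hp : IsForm 1 Jp := ⟨hJ.eps, by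
    ext i j
    exact hsym _ _, left_ne_zero_of_mul hdet⟩
  have hq : IsForm 1 Jq := ⟨hJ.eps, by
    ext i j
    exact hsym _ _, right_ne_zero_of_mul hdet⟩
  have hJu : uᵀ * Jw * u = fromBlocks Jp 0 0 Jq := by rw [huT, hmul, hJe]
  have hsu : v * diagonal χ * u = fromBlocks 1 0 0 (-1) := by rw [hmul, hse]
  have hEu : v * E * u = fromBlocks 1 0 0 0 := by rw [hmul, hEe]
  have hcj : ∀ a b : Matrix (Fin w) (Fin w) k, (v * a * u) * (v * b * u) = v * (a * b) * u := by
    intro a b
    calc (v * a * u) * (v * b * u) = v * a * (u * v) * b * u := by simp only [Matrix.mul_assoc]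
      _ = v * (a * b) * u := by rw [huv, Matrix.mul_one]; simp only [Matrix.mul_assoc]
  have h' : Proj (v * diagonal χ * u) (v * E * u) := by
    refine ⟨?_, ?_⟩
    · rw [hcj, hEd, h.idem]
    · intro x hx
      have hx1 : x = v * (u * x * v) * u := by
        calc x = (v * u) * x * (v * u) := by rw [hvu, Matrix.one_mul, Matrix.mul_one]
          _ = v * (u * x * v) * u := by simp only [Matrix.mul_assoc]
      have hx2 : diagonal χ * (u * x * v) = (u * x * v) * diagonal χ := by
        calc diagonal χ * (u * x * v) = (u * v) * (diagonal χ * (u * x * v)) := by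
              rw [huv, Matrix.one_mul]
          _ = u * ((v * diagonal χ * u) * x) * v := by simp only [Matrix.mul_assoc]
          _ = u * (x * (v * diagonal χ * u)) * v := by rw [hx]
          _ = ((u * x * v) * diagonal χ) * (u * v) := by simp only [Matrix.mul_assoc]
          _ = (u * x * v) * diagonal χ := by rw [huv, Matrix.mul_one]
      rw [hx1, hcj, hcj, hEd, h.comm _ hx2]
  have hmain : ∀ (J' s' E' : Matrix (Fin p ⊕ Fin p) (Fin p ⊕ Fin p) k) (h3 : Proj s' E'),
      J' = fromBlocks Jp 0 0 Jq → s' = fromBlocks 1 0 0 (-1) → E' = fromBlocks 1 0 0 0 →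
      HC1 (isoHom J') s' E' h3 := by
    intro J' s' E' h3 h4 h5 h6
    subst h4 h5 h6
    exact hOW p Jp Jq h3 hp hq
  have h7 := hOT (Fin w) (Fin p ⊕ Fin p) Jw (diagonal χ) E u v (by rw [hEd]; exact h) h' huv hvu
    (hmain _ _ _ h' hJu hsu hEu)
  subst hEd
  exact h7

/-- ON1: eigenvalues `1` and `-1` when some element anticommutes. -/
def ST_ON1 (k : Type u) [Field k] : Prop := ∀ (w : ℕ) (Jw : Matrix (Fin w) (Fin w) k)
  (χ : Fin w → k) (h : Proj (diagonal χ) (diagonal fun j => (1 + χ j) / 2)), IsForm 1 Jw →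
  (diagonal χ)ᵀ * Jw * diagonal χ = Jw → (∀ j, χ j = 1 ∨ χ j = -1) →
  (∃ x : IsoG Jw, diagonal χ * isoHom Jw x = -(isoHom Jw x * diagonal χ)) →
  HC1 (isoHom Jw) (diagonal χ) (diagonal fun j => (1 + χ j) / 2) h

theorem st_ON1 {k : Type u} [Field k] [IsAlgClosed k] [CharZero k] (hOW : ST_OW1 k)
    (hOT : ST_OT1 k) : ST_ON1 k := by
  classical
  intro w Jw χ h hJ hχJ hχ hx
  obtain ⟨x, hx⟩ := hx
  have h2k : (2 : k) ≠ 0 := two_ne_zero
  let P : Fin w → Prop := fun j => χ j = 1
  have hpm : ∀ j, ¬ P j → χ j = -1 := fun j hj => (hχ j).resolve_left hj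
  obtain ⟨p, ⟨ep⟩⟩ : ∃ p : ℕ, Nonempty ({j // P j} ≃ Fin p) :=
    ⟨_, ⟨Fintype.equivFin _⟩⟩
  obtain ⟨q, ⟨eq⟩⟩ : ∃ q : ℕ, Nonempty ({j // ¬ P j} ≃ Fin q) :=
    ⟨_, ⟨Fintype.equivFin _⟩⟩
  let e := (Equiv.sumCongr ep.symm eq.symm).trans (Equiv.sumCompl P)
  have hl : ∀ i, χ (e (Sum.inl i)) = 1 := fun i => (ep.symm i).2
  have hr : ∀ i, χ (e (Sum.inr i)) = -1 := fun i => hpm _ (eq.symm i).2
  refine on1_aux hOW hOT ?_ Jw χ e hl hr hJ hχJ h
  -- the trace
  have hd : (isoHom Jw x).det = 1 := x.1.2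
  generalize isoHom Jw x = X at hx hd
  have hu : IsUnit X.det := by rw [hd]; exact isUnit_one
  have h1 : diagonal χ = -(X * diagonal χ * X⁻¹) := by
    calc diagonal χ = diagonal χ * X * X⁻¹ := by
          rw [Matrix.mul_assoc, mul_nonsing_inv _ hu, Matrix.mul_one]
      _ = _ := by rw [hx, Matrix.neg_mul]
  have h2 : (diagonal χ).trace = 0 := by
    have h3 := congrArg trace h1
    rw [trace_neg, Matrix.mul_assoc, trace_mul_comm, Matrix.mul_assoc, nonsing_inv_mul _ hu,
      Matrix.mul_one] at h3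
    have h4 : (2 : k) * (diagonal χ).trace = 0 := by linear_combination h3
    exact (mul_eq_zero.mp h4).resolve_left h2k
  rw [trace_diagonal, ← Equiv.sum_comp e, Fintype.sum_sum_type] at h2
  simp only [hl, hr, Finset.sum_const, Finset.card_univ, Fintype.card_fin, nsmul_eq_mul,
    mul_one, mul_neg] at h2
  have h3 : (p : k) = q := by linear_combination h2
  exact_mod_cast h3

end Pool.Agent.Helper97.SPN
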