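import Pool.Agent.Helper89.SPN.OT
import Pool.Agent.Helper59.SPN.OP
import Pool.Agent.Helper67.SPN.OL

set_option autoImplicit false

/-!
# Oriented charts, equivariant for the elements which commute or anticommute: reductions
-/

namespace Pool.Agent.Helper97.SPN

open MvPolynomial Matrix Pool.Agent.Helper14.RG Pool.Agent.Helper97.CG Pool.Agent.Helper52.CG

universe u

/-- Chart for the oriented centraliser, equivariant for the elements which commute with `s` up to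
sign. -/
def HC1 {k : Type*} [Field k] {n : Type} [Fintype n] [DecidableEq n] {G : Type*} [Group G]
    (ρ : G →* Matrix n n k) (s E : Matrix n n k) (h : Proj s E) : Prop :=
  HasLChart (mAlg ρ) (cm0 ρ s E h) (cmm ρ s)

/-- OT1 -/
def ST_OT1 (k : Type u) [Field k] : Prop := ∀ (n m : Type) [Fintype n] [DecidableEq n] [Fintype m]
  [DecidableEq m] (J s E : Matrix n n k) (u : Matrix n m k) (v : Matrix m n k) (h : Proj s E)
  (h' : Proj (v * s * u) (v * E * u)), u * v = 1 → v * u = 1 →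
  HC1 (isoHom (uᵀ * J * u)) (v * s * u) (v * E * u) h' → HC1 (isoHom J) s E h

/-- OP1 -/
def ST_OP1 (k : Type u) [Field k] : Prop := ∀ (G₁ G₂ : Type u) [Group G₁] [Group G₂] (n m : Type)
  [Fintype n] [DecidableEq n] [Fintype m] [DecidableEq m] (ρ₁ : G₁ →* Matrix n n k)
  (ρ₂ : G₂ →* Matrix m m k) (s₁ : Matrix n n k) (s₂ E₂ : Matrix m m k) (h₂ : Proj s₂ E₂)
  (h : Proj (fromBlocks s₁ 0 0 s₂) (fromBlocks 0 0 0 E₂)), HC ρ₁ s₁ → HC1 ρ₂ s₂ E₂ h₂ →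
  HC1 (pHom ρ₁ ρ₂) (fromBlocks s₁ 0 0 s₂) (fromBlocks 0 0 0 E₂) h

/-- OL1 -/
def ST_OL1 (k : Type u) [Field k] : Prop := ∀ (e : ℕ) (w : Type) [Fintype w] [DecidableEq w]
  (Jw : Matrix w w k), IsForm 1 Jw → ∀ (sE : Matrix (Fin e) (Fin e) k) (sw Ew : Matrix w w k),
  sE.det ≠ 0 → swᵀ * Jw * sw = Jw →
  (∀ x ∈ cmm (isoHom (LJ (Fin e) 1 Jw)) (dg sE (sEᵀ)⁻¹ sw),
    b12 (isoHom _ x) = 0 ∧ b13 (isoHom _ x) = 0 ∧ b21 (isoHom _ x) = 0 ∧ b23 (isoHom _ x) = 0 ∧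
    b31 (isoHom _ x) = 0 ∧ b32 (isoHom _ x) = 0) →
  ∀ (h' : Proj (fromBlocks sE 0 0 sw) (fromBlocks 0 0 0 Ew))
    (h : Proj (dg sE (sEᵀ)⁻¹ sw) (dg 0 0 Ew)),
  HC1 (pHom (glHom (Fin e) k) (isoHom Jw)) (fromBlocks sE 0 0 sw) (fromBlocks 0 0 0 Ew) h' →
  HC1 (isoHom (LJ (Fin e) 1 Jw)) (dg sE (sEᵀ)⁻¹ sw) (dg 0 0 Ew) h

theorem st_OT1 {k : Type u} [Field k] [IsAlgClosed k] [CharZero k] : ST_OT1 k := by
  intro n m _ _ _ _ J s E u v h h' huv hvu hc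
  have h1 := hasLChart_congr (A1 := mAlg (isoHom J)) hc (cj J u v huv hvu) (by
    intro a ha
    induction ha using Algebra.adjoin_induction with
    | mem x hx =>
      obtain ⟨i, j, rfl⟩ := hx
      show (fun g : IsoG J => (v * isoHom J g * u) i j) ∈ mAlg (isoHom J)
      have h2 : (fun g : IsoG J => (v * isoHom J g * u) i j)
          = ∑ l : n, ∑ l' : n, (v i l' * u l j) • (fun g : IsoG J => isoHom J g l' l) := by
        funext g
        simp only [Finset.sum_apply, Pi.smul_apply, smul_eq_mul, Matrix.mul_apply,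
          Finset.sum_mul]
        exact Finset.sum_congr rfl fun l _ => Finset.sum_congr rfl fun l' _ => by ring
      rw [h2]
      have h3 : ∀ l' l : n, (fun g : IsoG J => isoHom J g l' l) ∈ mAlg (isoHom J) :=
        fun l' l => Algebra.subset_adjoin ⟨l', l, rfl⟩
      exact sum_mem fun l _ => sum_mem fun l' _ => Subalgebra.smul_mem _ (h3 l' l) _
    | algebraMap r => exact Subalgebra.algebraMap_mem _ r
    | add x y _ _ hx hy => exact add_mem hx hy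
    | mul x y _ _ hx hy => exact mul_mem hx hy)
  have e0 : ∀ g : IsoG J, ((v * s * u) * (v * isoHom J g * u) =
      (v * isoHom J g * u) * (v * s * u)) ↔ s * isoHom J g = isoHom J g * s := by
    intro g
    rw [conj_mul u v huv, conj_mul u v huv]
    exact ⟨fun h => conj_inj u v huv h, fun h => by rw [h]⟩
  have e1 : (cm0 (isoHom (uᵀ * J * u)) (v * s * u) (v * E * u) h').comap
      (cj J u v huv hvu).toMonoidHom = cm0 (isoHom J) s E h := by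
    ext g
    show ((v * s * u) * (v * isoHom J g * u) = (v * isoHom J g * u) * (v * s * u) ∧
      ((v * isoHom J g * u) * (v * E * u) + (1 - v * E * u)).det = 1) ↔
      (s * isoHom J g = isoHom J g * s ∧ (isoHom J g * E + (1 - E)).det = 1)
    rw [e0 g, det_cm0_conj u v huv hvu]
  have e2 : (cmm (isoHom (uᵀ * J * u)) (v * s * u)).comap (cj J u v huv hvu).toMonoidHom
      = cmm (isoHom J) s := by
    ext g
    show ((v * s * u) * (v * isoHom J g * u) = (v * isoHom J g * u) * (v * s * u) ∨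
        (v * s * u) * (v * isoHom J g * u) = -((v * isoHom J g * u) * (v * s * u))) ↔
      (s * isoHom J g = isoHom J g * s ∨ s * isoHom J g = -(isoHom J g * s))
    rw [conj_mul u v huv, conj_mul u v huv]
    have h3 : -(v * (isoHom J g * s) * u) = v * (-(isoHom J g * s)) * u := by
      rw [Matrix.mul_neg, Matrix.neg_mul]
    rw [h3]
    exact ⟨fun h => h.imp (conj_inj u v huv) (conj_inj u v huv),
      fun h => h.imp (fun h => by rw [h]) (fun h => by rw [h])⟩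
  rw [e1, e2] at h1
  exact h1

theorem st_OP1 {k : Type u} [Field k] [IsAlgClosed k] [CharZero k] : ST_OP1 k := by
  intro G₁ G₂ _ _ n m _ _ _ _ ρ₁ ρ₂ s₁ s₂ E₂ h₂ hP0 h1 h2
  obtain ⟨N₁, _, _, ⟨c1⟩⟩ := h1
  obtain ⟨N₂, _, _, ⟨c2⟩⟩ := h2
  have hm1 : ∀ a ∈ mAlg ρ₁, (fun g : G₁ × G₂ => a g.1) ∈ mAlg (pHom ρ₁ ρ₂) := by
    intro a ha
    induction ha using Algebra.adjoin_induction with
    | mem x hx =>
      obtain ⟨i, j, rfl⟩ := hx
      exact Algebra.subset_adjoin ⟨Sum.inl i, Sum.inl j, rfl⟩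
    | algebraMap r => exact Subalgebra.algebraMap_mem _ r
    | add x y _ _ hx hy => exact add_mem hx hy
    | mul x y _ _ hx hy => exact mul_mem hx hy
  have hm2 : ∀ a ∈ mAlg ρ₂, (fun g : G₁ × G₂ => a g.2) ∈ mAlg (pHom ρ₁ ρ₂) := by
    intro a ha
    induction ha using Algebra.adjoin_induction with
    | mem x hx =>
      obtain ⟨i, j, rfl⟩ := hx
      exact Algebra.subset_adjoin ⟨Sum.inr i, Sum.inr j, rfl⟩
    | algebraMap r => exact Subalgebra.algebraMap_mem _ r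
    | add x y _ _ hx hy => exact add_mem hx hy
    | mul x y _ _ hx hy => exact mul_mem hx hy
  have hl : ∀ g : G₁ × G₂, fromBlocks s₁ 0 0 s₂ * pHom ρ₁ ρ₂ g
      = fromBlocks (s₁ * ρ₁ g.1) 0 0 (s₂ * ρ₂ g.2) := by
    intro g
    show fromBlocks s₁ 0 0 s₂ * fromBlocks (ρ₁ g.1) 0 0 (ρ₂ g.2) = _
    rw [fromBlocks_multiply]
    simp
  have hr : ∀ g : G₁ × G₂, pHom ρ₁ ρ₂ g * fromBlocks s₁ 0 0 s₂
      = fromBlocks (ρ₁ g.1 * s₁) 0 0 (ρ₂ g.2 * s₂) := by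
    intro g
    show fromBlocks (ρ₁ g.1) 0 0 (ρ₂ g.2) * fromBlocks s₁ 0 0 s₂ = _
    rw [fromBlocks_multiply]
    simp
  have hcm : ∀ g : G₁ × G₂, g ∈ cm (pHom ρ₁ ρ₂) (fromBlocks s₁ 0 0 s₂) ↔
      g.1 ∈ cm ρ₁ s₁ ∧ g.2 ∈ cm ρ₂ s₂ := by
    intro g
    show fromBlocks s₁ 0 0 s₂ * pHom ρ₁ ρ₂ g = pHom ρ₁ ρ₂ g * fromBlocks s₁ 0 0 s₂ ↔
      s₁ * ρ₁ g.1 = ρ₁ g.1 * s₁ ∧ s₂ * ρ₂ g.2 = ρ₂ g.2 * s₂
    rw [hl, hr, fromBlocks_inj]
    tauto
  have hE : ∀ g : G₁ × G₂, (pHom ρ₁ ρ₂ g * fromBlocks 0 0 0 E₂ + (1 - fromBlocks 0 0 0 E₂)).det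
      = (ρ₂ g.2 * E₂ + (1 - E₂)).det := by
    intro g
    have e1 : pHom ρ₁ ρ₂ g * fromBlocks 0 0 0 E₂ + (1 - fromBlocks 0 0 0 E₂)
        = fromBlocks 1 0 0 (ρ₂ g.2 * E₂ + (1 - E₂)) := by
      show fromBlocks (ρ₁ g.1) 0 0 (ρ₂ g.2) * fromBlocks 0 0 0 E₂ +
        (1 - fromBlocks 0 0 0 E₂) = _
      rw [fromBlocks_multiply, ← fromBlocks_one, sub_eq_add_neg, fromBlocks_neg, fromBlocks_add,
        fromBlocks_add]
      simp [sub_eq_add_neg]
    rw [e1, det_fromBlocks_zero₂₁, det_one, one_mul]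
  have hcm0 : ∀ g : G₁ × G₂, g ∈ cm0 (pHom ρ₁ ρ₂) (fromBlocks s₁ 0 0 s₂) (fromBlocks 0 0 0 E₂) hP0
      ↔ g.1 ∈ cm ρ₁ s₁ ∧ g.2 ∈ cm0 ρ₂ s₂ E₂ h₂ := by
    intro g
    rw [mem_cm0, mem_cm0, hE]
    constructor
    · rintro ⟨ha, hb⟩
      obtain ⟨hc, hd⟩ := (hcm g).mp ha
      exact ⟨hc, hd, hb⟩
    · rintro ⟨ha, hb, hc⟩
      exact ⟨(hcm g).mpr ⟨ha, hb⟩, hc⟩
  have hcmm : ∀ g : G₁ × G₂, g ∈ cmm (pHom ρ₁ ρ₂) (fromBlocks s₁ 0 0 s₂) →
      g.1 ∈ cmm ρ₁ s₁ ∧ g.2 ∈ cmm ρ₂ s₂ := by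
    intro g hg
    have hg' : fromBlocks s₁ 0 0 s₂ * pHom ρ₁ ρ₂ g = pHom ρ₁ ρ₂ g * fromBlocks s₁ 0 0 s₂ ∨
      fromBlocks s₁ 0 0 s₂ * pHom ρ₁ ρ₂ g = -(pHom ρ₁ ρ₂ g * fromBlocks s₁ 0 0 s₂) := hg
    rw [hl, hr, fromBlocks_neg, fromBlocks_inj, fromBlocks_inj] at hg'
    rcases hg' with hg' | hg'
    · exact ⟨Or.inl hg'.1, Or.inl hg'.2.2.2⟩
    · exact ⟨Or.inr hg'.1, Or.inr hg'.2.2.2⟩
  refine ⟨N₁ ⊕ N₂, inferInstance, inferInstance, ⟨{
    hH := (cm0_le _ _ _ _).trans (cm_le_cmm _ _)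
    q0 := fun g => c1.q0 g.1 * c2.q0 g.2
    q0_mem := mul_mem (hm1 _ c1.q0_mem) (hm2 _ c2.q0_mem)
    q0_ne := ?_
    t := fun g => Sum.elim (c1.t g.1) (c2.t g.2)
    treg := ?_
    sep := ?_
    dom := ?_
    inv := ?_
    equiv := ?_ }⟩⟩
  · obtain ⟨g1, hg1⟩ := Function.ne_iff.mp c1.q0_ne
    obtain ⟨g2, hg2⟩ := Function.ne_iff.mp c2.q0_ne
    exact Function.ne_iff.mpr ⟨(g1, g2), mul_ne_zero hg1 hg2⟩
  · rintro (j | j)
    · obtain ⟨a, ha, b, hb, h⟩ := c1.treg j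
      exact ⟨_, hm1 a ha, _, hm1 b hb, fun g hg => h g.1 (left_ne_zero_of_mul hg)⟩
    · obtain ⟨a, ha, b, hb, h⟩ := c2.treg j
      exact ⟨_, hm2 a ha, _, hm2 b hb, fun g hg => h g.2 (right_ne_zero_of_mul hg)⟩
  · intro g g' hg hg' ht
    obtain ⟨h1, hh1, e1⟩ := c1.sep g.1 g'.1 (left_ne_zero_of_mul hg) (left_ne_zero_of_mul hg')
      (funext fun j => congrFun ht (Sum.inl j))
    obtain ⟨h2, hh2, e2⟩ := c2.sep g.2 g'.2 (right_ne_zero_of_mul hg) (right_ne_zero_of_mul hg')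
      (funext fun j => congrFun ht (Sum.inr j))
    exact ⟨(h1, h2), (hcm0 _).mpr ⟨hh1, hh2⟩, Prod.ext e1 e2⟩
  · intro P hP
    let Q : MvPolynomial (N₂ ⊕ N₁) k := rename Sum.swap P
    have hQ : Q ≠ 0 := by
      intro h0
      apply hP
      exact rename_injective _ (Equiv.sumComm N₁ N₂).injective (h0.trans (map_zero _).symm)
    have hev : ∀ (a : N₁ → k) (b : N₂ → k), eval (Sum.elim b a) Q = eval (Sum.elim a b) P := by
      intro a b
      show eval (Sum.elim b a) (rename Sum.swap P) = _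
      rw [eval_rename]
      have : Sum.elim b a ∘ Sum.swap = Sum.elim a b := by
        funext j
        rcases j with j | j <;> rfl
      rw [this]
    obtain ⟨b, hb⟩ := exists_special Q hQ
    obtain ⟨g1, hg1, hg1'⟩ := c1.dom _ hb
    rw [eval_special, hev] at hg1'
    have h3 : (aeval (Sum.elim (fun i => C (c1.t g1 i)) X) P : MvPolynomial N₂ k) ≠ 0 := by
      intro h0
      apply hg1'
      rw [← eval_special, h0, map_zero]
    obtain ⟨g2, hg2, hg2'⟩ := c2.dom _ h3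
    rw [eval_special] at hg2'
    exact ⟨(g1, g2), mul_ne_zero hg1 hg2, hg2'⟩
  · intro h hh g hg j
    obtain ⟨hh1, hh2⟩ := (hcm0 h).mp hh
    rcases j with j | j
    · exact c1.inv h.1 hh1 g.1 (left_ne_zero_of_mul hg) j
    · exact c2.inv h.2 hh2 g.2 (right_ne_zero_of_mul hg) j
  · intro h hh
    obtain ⟨hh1, hh2⟩ := hcmm h hh
    obtain ⟨r1, hr1⟩ := c1.equiv h.1 hh1
    obtain ⟨r2, hr2⟩ := c2.equiv h.2 hh2
    refine ⟨fromBlocks r1 0 0 r2, fun g hg => ?_⟩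
    obtain ⟨e1, e1'⟩ := hr1 g.1 (left_ne_zero_of_mul hg)
    obtain ⟨e2, e2'⟩ := hr2 g.2 (right_ne_zero_of_mul hg)
    refine ⟨mul_ne_zero e1 e2, ?_⟩
    rintro (j | j)
    · rw [Fintype.sum_sum_type]
      simp only [Sum.elim_inl, Sum.elim_inr, fromBlocks_apply₁₁, fromBlocks_apply₁₂,
        Matrix.zero_apply, zero_mul, Finset.sum_const_zero, add_zero]
      exact e1' j
    · rw [Fintype.sum_sum_type]
      simp only [Sum.elim_inl, Sum.elim_inr, fromBlocks_apply₂₁, fromBlocks_apply₂₂,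
        Matrix.zero_apply, zero_mul, Finset.sum_const_zero, zero_add]
      exact e2' j

/-- Levi reduction -/
theorem st_OL1 {k : Type u} [Field k] [IsAlgClosed k] [CharZero k] (hF : ST_LEVF k)
    (hC : ST_LEVC k) : ST_OL1 k := by
  intro e w _ _ Jw hJ sE sw Ew hsE hsw hblk h' h0 hL
  have hs : IsSg (1 : k) false := Or.inr ⟨rfl, rfl⟩
  obtain ⟨NL, hNL, hDL, ⟨ch⟩⟩ := hL
  obtain ⟨q1, hq1, hq1'⟩ := exists_refine (A := mAlg (isoHom (LJ (Fin e) 1 Jw))) (q0 := qq)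
    (f := fun g => ch.q0 (Psi hF hJ g)) qq_mem
    (comp_mem_RegU rfl (Psi hF hJ) (Psi_reg (q1 := qq) (fun g hg => hg) hF hJ) ch.q0_mem)
  have hq : ∀ g, q1 g ≠ 0 → (b11 (mt g)).det ≠ 0 := fun g hg => ((hq1' g).1 hg).1
  have hqL : ∀ g, q1 g ≠ 0 → ch.q0 (Psi hF hJ g) ≠ 0 := fun g hg => ((hq1' g).1 hg).2
  -- elements commuting with `s`
  have hB : ∀ h ∈ cmm (isoHom (LJ (Fin e) 1 Jw)) (dg sE (sEᵀ)⁻¹ sw),
      ∃ g : GL (Fin e) k × IsoG Jw, ∃ h2 : Matrix (Fin e) (Fin e) k,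
      mt h = dg (glHom (Fin e) k g.1) h2 (isoHom Jw g.2) ∧
      h2 * (glHom (Fin e) k g.1)ᵀ = 1 ∧ (glHom (Fin e) k g.1).det ≠ 0 := fun h hh =>
    blk_of hJ h (hblk h hh)
  have hdom : ∀ P : MvPolynomial ((((w × Fin e) ⊕ KI e false) ⊕ ((w × Fin e) ⊕ KI e false)) ⊕ NL) k,
      P ≠ 0 → ∃ g, q1 g ≠ 0 ∧
        eval (Sum.elim (ub false Jw 1 (mt g)) (ch.t (Psi hF hJ g))) P ≠ 0 := by
    intro P hP
    obtain ⟨z, hz⟩ := exists_special P hP
    obtain ⟨gL, hgL, hgL'⟩ := ch.dom _ hz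
    obtain ⟨x, x1, x2, x3⟩ := exists_pt hF hC hs hJ z gL
    refine ⟨x, (hq1' x).2 ⟨x1, ?_⟩, ?_⟩
    · show ch.q0 (Psi hF hJ x) ≠ 0
      rw [x3]
      exact hgL
    · rw [x2, x3, ← eval_special]
      exact hgL'
  refine ⟨(((w × Fin e) ⊕ KI e false) ⊕ ((w × Fin e) ⊕ KI e false)) ⊕ NL, inferInstance, inferInstance,
    ⟨?_⟩⟩
  exact {
    hH := (cm0_le _ _ _ _).trans (cm_le_cmm _ _)
    q0 := q1
    q0_mem := hq1
    q0_ne := by
      obtain ⟨g, hg, _⟩ := hdom 1 one_ne_zero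
      intro h0
      exact hg (congrFun h0 g)
    t := fun g => Sum.elim (ub false Jw 1 (mt g)) (ch.t (Psi hF hJ g))
    treg := by
      intro j
      rcases j with j | j
      · exact ub_reg hq j
      · exact comp_mem_RegU' rfl (Psi hF hJ) (Psi_reg hq hF hJ) hqL (ch.treg j)
    sep := by
      intro g g' hg hg' ht
      have hu : ub false Jw 1 (mt g) = ub false Jw 1 (mt g') := by
        funext j
        exact congrFun ht (Sum.inl j)
      have hv : ch.t (Psi hF hJ g) = ch.t (Psi hF hJ g') := by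
        funext j
        exact congrFun ht (Sum.inr j)
      obtain ⟨hL, hhL, hhL'⟩ := ch.sep _ _ (hqL g hg) (hqL g' hg') hv
      have h1 := coord_eq hF hs hJ g g' (hq g hg) (hq g' hg') hu hL hhL'
      have h2 : mt (g⁻¹ * g') = dg (glHom (Fin e) k hL.1) ((glHom (Fin e) k hL.1)ᵀ)⁻¹
          (isoHom Jw hL.2) := by
        rw [mt_mul, h1, ← Matrix.mul_assoc, ← mt_mul, inv_mul_cancel]
        show (1 : Matrix _ _ k) * _ = _
        rw [Matrix.one_mul]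
      refine ⟨g⁻¹ * g', ⟨?_, ?_⟩, (mul_inv_cancel_left g g').symm⟩
      · show dg sE (sEᵀ)⁻¹ sw * mt (g⁻¹ * g') = mt (g⁻¹ * g') * dg sE (sEᵀ)⁻¹ sw
        rw [h2]
        exact blk_cm hhL.1
      · show (mt (g⁻¹ * g') * dg 0 0 Ew + (1 - dg 0 0 Ew)).det = 1
        have h3 : (fromBlocks (glHom (Fin e) k hL.1) 0 0 (isoHom Jw hL.2) * fromBlocks 0 0 0 Ew +
          (1 - fromBlocks 0 0 0 Ew)).det = 1 := hhL.2
        rw [blk_det0] at h3
        rw [h2, dg_det0, h3]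
    dom := hdom
    inv := by
      intro h hh g hg j
      obtain ⟨gL, h2, e1, e2, e3⟩ := hB h (Or.inl hh.1)
      obtain ⟨p1, p2⟩ := Psi_mul hF hJ g h (hq g hg) gL h2 e1 e3
      have hc : gL ∈ cm0 (pHom (glHom (Fin e) k) (isoHom Jw)) (fromBlocks sE 0 0 sw)
          (fromBlocks 0 0 0 Ew) h' := by
        have hh' : dg sE (sEᵀ)⁻¹ sw * mt h = mt h * dg sE (sEᵀ)⁻¹ sw := hh.1
        have hh2 : (mt h * dg 0 0 Ew + (1 - dg 0 0 Ew)).det = 1 := hh.2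
        rw [e1] at hh' hh2
        refine ⟨cm_blk hh', ?_⟩
        show (fromBlocks (glHom (Fin e) k gL.1) 0 0 (isoHom Jw gL.2) * fromBlocks 0 0 0 Ew +
          (1 - fromBlocks 0 0 0 Ew)).det = 1
        rw [blk_det0, ← hh2, dg_det0]
      rcases j with j | j
      · show ub false Jw 1 (mt (g * h)) j = ub false Jw 1 (mt g) j
        rw [mt_mul, e1, ub_mul_dg _ _ e3 e2]
      · show ch.t (Psi hF hJ (g * h)) j = ch.t (Psi hF hJ g) j
        rw [p2]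
        exact ch.inv gL hc _ (hqL g hg) j
    equiv := by
      intro h hh
      obtain ⟨gL, h2, e1, e2, e3⟩ := hB h hh
      have hc : gL ∈ cmm (pHom (glHom (Fin e) k) (isoHom Jw)) (fromBlocks sE 0 0 sw) := by
        rcases hh with hh' | hh'
        · left
          have hh2 : dg sE (sEᵀ)⁻¹ sw * mt h = mt h * dg sE (sEᵀ)⁻¹ sw := hh'
          rw [e1] at hh2
          exact cm_blk hh2
        · right
          have hh2 : dg sE (sEᵀ)⁻¹ sw * mt h = -(mt h * dg sE (sEᵀ)⁻¹ sw) := hh'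
          rw [e1] at hh2
          exact cmm_blk hh2
      obtain ⟨ρ, hρ⟩ := ch.equiv gL hc
      refine ⟨fromBlocks 1 0 0 ρ, fun g hg => ?_⟩
      obtain ⟨p1, p2⟩ := Psi_mul hF hJ g h (hq g hg) gL h2 e1 e3
      obtain ⟨r1, r2⟩ := hρ _ (hqL g hg)
      refine ⟨(hq1' _).2 ⟨p1, ?_⟩, ?_⟩
      · show ch.q0 (Psi hF hJ (g * h)) ≠ 0
        rw [p2]
        exact r1
      · intro j
        rw [Fintype.sum_sum_type]
        rcases j with j | j
        · show ub false Jw 1 (mt (g * h)) j = _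
          rw [mt_mul, e1, ub_mul_dg _ _ e3 e2]
          simp [Matrix.one_apply]
        · show ch.t (Psi hF hJ (g * h)) j = _
          rw [p2, r2 j]
          simp }

end Pool.Agent.Helper97.SPN
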