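import Pool.Agent.Helper96.SPN.OW
import Pool.Agent.Helper97.SPN.Ev.Red

set_option autoImplicit false

/-!
# The chart of the oriented `p`-planes in dimension `2p`, equivariant for the swap
-/

namespace Pool.Agent.Helper97.SPN.Ev

open MvPolynomial Matrix Pool.Agent.Helper97.CG Pool.Agent.Helper14.RG Pool.Agent.Helper19.CG
open Pool.Agent.Helper97.SPN Pool.Agent.Helper96.SPN

universe u

section Swap

variable {k : Type u} [Field k] {a : Type} [Fintype a] [DecidableEq a]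

/-- the last columns of the identity -/
def e2 (k : Type*) [Field k] (a : Type) [DecidableEq a] : Matrix (a ⊕ a) a k := fromRows 0 1

lemma blocks_e2 {n m : Type} (A B : Matrix n a k) (C D : Matrix m a k) :
    fromBlocks A B C D * e2 k a = fromRows B D := by
  unfold e2
  rw [fromBlocks_mul_fromRows]
  simp

/-- the second block space -/
def y2 (v : Matrix (a ⊕ (a ⊕ Fin 0)) (a ⊕ a) k) (x : Matrix (a ⊕ a) (a ⊕ a) k) :
    Matrix (a ⊕ (a ⊕ Fin 0)) a k := v * (x * e2 k a)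

/-- the transposed graph -/
def tf (F : Matrix (a ⊕ Fin 0) a k) : Matrix (a ⊕ Fin 0) a k :=
  fromRows (-F.toRows₁ᵀ) 0

/-- the transposed index -/
def tj (j : (a ⊕ Fin 0) × a) : (a ⊕ Fin 0) × a := match j.1 with
  | Sum.inl i => (Sum.inl j.2, i)
  | Sum.inr i => i.elim0

omit [Fintype a] [DecidableEq a] in
lemma tf_apply (F : Matrix (a ⊕ Fin 0) a k) (j : (a ⊕ Fin 0) × a) :
    tf F j.1 j.2 = -F (tj j).1 (tj j).2 := by
  obtain ⟨i, j⟩ := j
  rcases i with i | i
  · rfl
  · exact i.elim0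

omit [Fintype a] [DecidableEq a] in
lemma Sf_tf (F : Matrix (a ⊕ Fin 0) a k) : Sf (tf F) = -Sf F := by
  ext i j
  rw [Matrix.neg_apply, Sf_apply, Sf_apply]
  simp only [Finset.univ_eq_empty, Finset.sum_empty, add_zero]
  show -F (Sum.inl i) j + -F (Sum.inl j) i = _
  ring

lemma anti_blocks {m : Matrix (a ⊕ a) (a ⊕ a) k} [CharZero k]
    (h : fromBlocks 1 0 0 (-1) * m = -(m * fromBlocks 1 0 0 (-1))) :
    m = fromBlocks 0 m.toBlocks₁₂ m.toBlocks₂₁ 0 := by
  have h2 : (2 : k) ≠ 0 := two_ne_zero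
  have h0 := fromBlocks_toBlocks m
  rw [← h0, fromBlocks_multiply, fromBlocks_multiply, fromBlocks_neg] at h
  simp only [Matrix.one_mul, Matrix.zero_mul, add_zero, zero_add, Matrix.mul_one, Matrix.mul_zero,
    Matrix.neg_mul, Matrix.mul_neg, neg_neg] at h
  obtain ⟨h11, -, -, h22⟩ := fromBlocks_inj.mp h
  have e11 : m.toBlocks₁₁ = 0 := by
    ext i j
    have h3 := congrFun (congrFun h11 i) j
    rw [Matrix.neg_apply] at h3
    have h4 : (2 : k) * m.toBlocks₁₁ i j = 0 := by linear_combination h3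
    exact (mul_eq_zero.mp h4).resolve_left h2
  have e22 : m.toBlocks₂₂ = 0 := by
    ext i j
    have h3 := congrFun (congrFun h22 i) j
    rw [Matrix.neg_apply] at h3
    have h4 : (2 : k) * m.toBlocks₂₂ i j = 0 := by linear_combination -h3
    exact (mul_eq_zero.mp h4).resolve_left h2
  conv_lhs => rw [← h0, e11, e22]

lemma det_anti (B C : Matrix a a k) :
    (fromBlocks 0 B C 0).det = (-1) ^ Fintype.card a * (B.det * C.det) := by
  have h1 : fromBlocks 0 B C 0 = fromBlocks B 0 0 C * fromBlocks 0 1 1 0 := by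
    rw [fromBlocks_multiply]
    simp
  have h2 : (fromBlocks 0 1 1 0 : Matrix (a ⊕ a) (a ⊕ a) k) =
      fromBlocks 1 0 1 1 * fromBlocks 1 1 0 (-1) * fromBlocks 1 0 (-1) 1 := by
    rw [fromBlocks_multiply, fromBlocks_multiply]
    simp
  have h3 : (fromBlocks 0 1 1 0 : Matrix (a ⊕ a) (a ⊕ a) k).det = (-1) ^ Fintype.card a := by
    rw [h2, det_mul, det_mul, det_fromBlocks_zero₁₂, det_fromBlocks_zero₂₁,
      det_fromBlocks_zero₁₂, det_one, det_neg, det_one]
    ring
  rw [h1, det_mul, h3, det_fromBlocks_zero₁₂]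
  ring

lemma yy_anti (v : Matrix (a ⊕ (a ⊕ Fin 0)) (a ⊕ a) k) (x : Matrix (a ⊕ a) (a ⊕ a) k)
    (B C : Matrix a a k) : yy v (x * fromBlocks 0 B C 0) = y2 v x * C := by
  unfold yy y2
  have h1 : fromBlocks 0 B C 0 * e1 k a a = e2 k a * C := by
    rw [blocks_e1]
    unfold e2
    rw [fromRows_mul, Matrix.one_mul, Matrix.zero_mul]
  rw [Matrix.mul_assoc, h1]
  simp only [Matrix.mul_assoc]

lemma aa_anti (v : Matrix (a ⊕ (a ⊕ Fin 0)) (a ⊕ a) k) (x : Matrix (a ⊕ a) (a ⊕ a) k)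
    (B C : Matrix a a k) : aa v (x * fromBlocks 0 B C 0) = (y2 v x).toRows₁ * C := by
  unfold aa
  rw [yy_anti]
  rfl

lemma y2_rows {v : Matrix (a ⊕ (a ⊕ Fin 0)) (a ⊕ a) k} {x : Matrix (a ⊕ a) (a ⊕ a) k}
    {Jp Jq : Matrix a a k} (hv : vᵀ * Pool.Agent.Helper96.SPN.Lm k a (Fin 0) * v = fromBlocks Jp 0 0 Jq)
    (hx : xᵀ * fromBlocks Jp 0 0 Jq * x = fromBlocks Jp 0 0 Jq) (h : (aa v x).det ≠ 0) :
    (y2 v x).toRows₂ = tf (ff v x) * (y2 v x).toRows₁ := by
  have h1 : (yy v x)ᵀ * Pool.Agent.Helper96.SPN.Lm k a (Fin 0) * y2 v x = 0 := by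
    unfold yy y2
    calc (v * (x * e1 k a a))ᵀ * Pool.Agent.Helper96.SPN.Lm k a (Fin 0) * (v * (x * e2 k a))
        = (e1 k a a)ᵀ * (xᵀ * (vᵀ * Pool.Agent.Helper96.SPN.Lm k a (Fin 0) * v) * x) * e2 k a := by
          rw [transpose_mul, transpose_mul]; simp only [Matrix.mul_assoc]
      _ = 0 := by
        rw [hv, hx, Matrix.mul_assoc, blocks_e2]
        unfold e1
        rw [transpose_fromRows, fromCols_mul_fromRows]
        simp
  rw [yy_eq h, transpose_mul, Matrix.mul_assoc, Matrix.mul_assoc] at h1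
  have hau : IsUnit ((aa v x)ᵀ).det := by
    rw [det_transpose]; exact isUnit_iff_ne_zero.mpr h
  have h2 : (gr (ff v x))ᵀ * (Pool.Agent.Helper96.SPN.Lm k a (Fin 0) * y2 v x) = 0 := by
    have h3 := congrArg (fun m => ((aa v x)ᵀ)⁻¹ * m) h1
    simp only [← Matrix.mul_assoc, nonsing_inv_mul _ hau, Matrix.one_mul, Matrix.mul_zero] at h3
    rw [← Matrix.mul_assoc]
    exact h3
  generalize ff v x = F at h2 ⊢
  generalize y2 v x = y at h2 ⊢
  obtain ⟨y0, z, rfl⟩ : ∃ y0 z, y = fromRows y0 z := ⟨_, _, (fromRows_toRows y).symm⟩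
  obtain ⟨y1, y3, rfl⟩ : ∃ y1 y3, z = fromRows y1 y3 := ⟨_, _, (fromRows_toRows z).symm⟩
  have h4 : Pool.Agent.Helper96.SPN.Lm k a (Fin 0) * fromRows y0 (fromRows y1 y3) = fromRows y1 (fromRows y0 y3) := by
    unfold Pool.Agent.Helper96.SPN.Lm
    rw [fromBlocks_mul_fromRows, fromCols_mul_fromRows, fromBlocks_mul_fromRows, fromRows_mul]
    simp only [Matrix.zero_mul, Matrix.one_mul, zero_add, add_zero]
    congr 1
    ext i j
    rcases i with i | i
    · simp
    · exact i.elim0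
  rw [h4] at h2
  unfold gr at h2
  obtain ⟨F1, F2, rfl⟩ : ∃ F1 F2, F = fromRows F1 F2 := ⟨_, _, (fromRows_toRows F).symm⟩
  rw [transpose_fromRows, transpose_fromRows, fromCols_mul_fromRows, fromCols_mul_fromRows,
    transpose_one, Matrix.one_mul] at h2
  have h5 : F2ᵀ * y3 = 0 := by
    ext i j
    rw [Matrix.mul_apply]
    simp
  rw [h5, add_zero] at h2
  rw [toRows₂_fromRows, toRows₁_fromRows]
  unfold tf
  rw [toRows₁_fromRows, fromRows_mul, Matrix.neg_mul, eq_neg_of_add_eq_zero_left h2]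
  congr 1
  ext i
  exact i.elim0

lemma ff_anti {v : Matrix (a ⊕ (a ⊕ Fin 0)) (a ⊕ a) k} {x : Matrix (a ⊕ a) (a ⊕ a) k}
    {B C : Matrix a a k} {F : Matrix (a ⊕ Fin 0) a k} (hC : C.det ≠ 0)
    (h : (y2 v x).toRows₁.det ≠ 0) (h2 : (y2 v x).toRows₂ = F * (y2 v x).toRows₁) :
    ff v (x * fromBlocks 0 B C 0) = F := by
  unfold ff
  rw [aa_anti, yy_anti, Matrix.mul_inv_rev]
  have h1 : (y2 v x * C).toRows₂ = (y2 v x).toRows₂ * C := rfl
  rw [h1, Matrix.mul_assoc, ← Matrix.mul_assoc C, mul_nonsing_inv _ (isUnit_iff_ne_zero.mpr hC),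
    Matrix.one_mul, h2, Matrix.mul_assoc, mul_nonsing_inv _ (isUnit_iff_ne_zero.mpr h),
    Matrix.mul_one]

/-- the determinants of the two block spaces are proportional -/
lemma swap_det {u : Matrix (a ⊕ a) (a ⊕ (a ⊕ Fin 0)) k} {v : Matrix (a ⊕ (a ⊕ Fin 0)) (a ⊕ a) k}
    (huv : u * v = 1) {Jp Jq : Matrix a a k} (hp : Jp.det ≠ 0)
    (hv : vᵀ * Pool.Agent.Helper96.SPN.Lm k a (Fin 0) * v = fromBlocks Jp 0 0 Jq)
    (hiso : ∀ x : IsoG (fromBlocks Jp 0 0 Jq),
      (isoHom _ x)ᵀ * fromBlocks Jp 0 0 Jq * isoHom _ x = fromBlocks Jp 0 0 Jq)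
    (hdet : ∀ x : IsoG (fromBlocks Jp 0 0 Jq), (isoHom _ x).det = 1)
    (hgd : ∀ g : IsoG (fromBlocks Jp 0 0 Jq), (aa v (isoHom _ g)).det ≠ 0 →
      (Sf (ff v (isoHom _ g))).det = Jp.det * ((aa v (isoHom _ g)).det)⁻¹ ^ 2) :
    ∃ c : k, c ≠ 0 ∧ ∀ g : IsoG (fromBlocks Jp 0 0 Jq), (aa v (isoHom _ g)).det ≠ 0 →
      (y2 v (isoHom _ g)).toRows₁.det = c * (aa v (isoHom _ g)).det := by
  let e : a ⊕ a ≃ a ⊕ (a ⊕ Fin 0) := Equiv.sumCongr (Equiv.refl a) (Equiv.sumEmpty a (Fin 0)).symm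
  let v' : Matrix (a ⊕ a) (a ⊕ a) k := v.submatrix e id
  let u' : Matrix (a ⊕ a) (a ⊕ a) k := u.submatrix id e
  have huv' : u' * v' = 1 := by
    show u.submatrix id e * v.submatrix e id = 1
    rw [submatrix_mul_equiv, huv, submatrix_id_id]
  have hv' : v'.det ≠ 0 := by
    intro h0
    have h1 := congrArg det huv'
    rw [det_mul, h0, mul_zero, det_one] at h1
    exact zero_ne_one h1
  have hs : ((-1 : k) ^ Fintype.card a) * (-1) ^ Fintype.card a = 1 := by
    rw [← mul_pow]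
    simp
  refine ⟨v'.det * (-1) ^ Fintype.card a * Jp.det⁻¹, ?_, fun g hg => ?_⟩
  · refine mul_ne_zero (mul_ne_zero hv' (pow_ne_zero _ (neg_ne_zero.mpr one_ne_zero)))
      (inv_ne_zero hp)
  · have h1 := y2_rows hv (hiso g) hg
    have h2 := yy_eq hg
    have h3 := hgd g hg
    have hd := hdet g
    generalize isoHom (fromBlocks Jp 0 0 Jq) g = x at h1 h2 h3 hd hg ⊢
    have h4 : v' * x = fromBlocks (aa v x) (y2 v x).toRows₁ ((ff v x).toRows₁ * aa v x)
        (-(ff v x).toRows₁ᵀ * (y2 v x).toRows₁) := by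
      have h5 : v * x = fromCols (yy v x) (y2 v x) := by
        unfold yy y2
        rw [← Matrix.mul_assoc, ← Matrix.mul_assoc]
        have h6 : v * x * fromCols (e1 k a a) (e2 k a) = v * x := by
          have h7 : fromCols (e1 k a a) (e2 k a) = (1 : Matrix (a ⊕ a) (a ⊕ a) k) := by
            unfold e1 e2
            ext i j
            rcases i with i | i <;> rcases j with j | j <;> simp [Matrix.one_apply]
          rw [h7, Matrix.mul_one]
        conv_lhs => rw [← h6]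
        rw [mul_fromCols]
      have h6 : v' * x = (v * x).submatrix e id := rfl
      rw [h6, h5]
      ext i j
      rcases i with i | i
      · rcases j with j | j
        · rfl
        · rfl
      · rcases j with j | j
        · show yy v x (Sum.inr (Sum.inl i)) j = _
          rw [h2]
          rfl
        · show (y2 v x).toRows₂ (Sum.inl i) j = _
          rw [h1]
          rfl
    have h5 : fromBlocks (aa v x) (y2 v x).toRows₁ ((ff v x).toRows₁ * aa v x)
        (-(ff v x).toRows₁ᵀ * (y2 v x).toRows₁) = fromBlocks 1 0 (ff v x).toRows₁ 1 *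
        fromBlocks (aa v x) (y2 v x).toRows₁ 0 (-Sf (ff v x) * (y2 v x).toRows₁) := by
      rw [fromBlocks_multiply]
      have h6 : Sf (ff v x) = (ff v x).toRows₁ᵀ + (ff v x).toRows₁ := by
        unfold Sf
        have h7 : (ff v x).toRows₂ᵀ * (ff v x).toRows₂ = 0 := by
          ext i j
          rw [Matrix.mul_apply]
          simp
        rw [h7, add_zero]
      rw [h6]
      congr 1
      · simp
      · simp
      · simp
      · simp only [Matrix.one_mul, neg_add, Matrix.add_mul, Matrix.neg_mul]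
        abel
    have h6 := congrArg det h4
    rw [h5, det_mul, hd, mul_one, det_mul, det_fromBlocks_zero₁₂, det_one, one_mul,
      one_mul, det_fromBlocks_zero₂₁, det_mul, det_neg, h3] at h6
    rw [h6]
    field_simp
    linear_combination (-(y2 v x).toRows₁.det) * hs

end Swap

section Mn

variable {k : Type u} [Field k] {p : ℕ}

lemma mn_tf {F : Matrix (Fin (p + 1) ⊕ Fin 0) (Fin (p + 1)) k} (h : mn F ≠ 0) : mn (tf F) ≠ 0 := by
  unfold mn at h ⊢
  rw [Sf_tf]
  have h1 : (-Sf F).submatrix Fin.succ Fin.succ = -(Sf F).submatrix Fin.succ Fin.succ := rfl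
  rw [h1, det_neg]
  exact mul_ne_zero (pow_ne_zero _ (neg_ne_zero.mpr one_ne_zero)) h

lemma tj_corner {j : (Fin (p + 1) ⊕ Fin 0) × Fin (p + 1)}
    (h : (tj j).1 = Sum.inl 0 ∧ (tj j).2 = 0) : j.1 = Sum.inl 0 ∧ j.2 = 0 := by
  obtain ⟨i, j⟩ := j
  rcases i with i | i
  · exact ⟨congrArg Sum.inl h.2, Sum.inl_injective h.1⟩
  · exact i.elim0

end Mn

section Main

variable {k : Type u} [Field k] [IsAlgClosed k] [CharZero k]

lemma ow1_succ (hE : ST_EQV k) (hR : ST_REFL k) (p : ℕ)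
    (Jp Jq : Matrix (Fin (p + 1)) (Fin (p + 1)) k)
    (h : Proj (fromBlocks 1 0 0 (-1) : Matrix (Fin (p + 1) ⊕ Fin (p + 1))
      (Fin (p + 1) ⊕ Fin (p + 1)) k)
    (fromBlocks 1 0 0 0)) (hp : IsForm 1 Jp) (hq : IsForm 1 Jq) :
    HC1 (isoHom (fromBlocks Jp 0 0 Jq)) (fromBlocks 1 0 0 (-1)) (fromBlocks 1 0 0 0) h := by
  have hJ := isForm_blocks hp hq
  have hinf : Infinite k := IsAlgClosed.instInfinite
  have hc : Fintype.card (Fin (p + 1) ⊕ Fin 0) = Fintype.card (Fin (p + 1)) := by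
    simp only [Fintype.card_sum, Fintype.card_fin, add_zero]
  have hc2 : Fintype.card (Fin (p + 1) ⊕ Fin (p + 1)) =
      Fintype.card (Fin (p + 1) ⊕ (Fin (p + 1) ⊕ Fin 0)) := by
    simp only [Fintype.card_sum, Fintype.card_fin, add_zero]
  obtain ⟨u, hu⟩ := hE (Fin (p + 1) ⊕ Fin (p + 1)) (Fin (p + 1) ⊕ (Fin (p + 1) ⊕ Fin 0)) 1 _ _ hJ
    isForm_Lm hc2
  obtain ⟨v, huv, hv⟩ : ∃ v : Matrix (Fin (p + 1) ⊕ (Fin (p + 1) ⊕ Fin 0))
      (Fin (p + 1) ⊕ Fin (p + 1)) k, u * v = 1 ∧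
      vᵀ * Pool.Agent.Helper96.SPN.Lm k (Fin (p + 1)) (Fin 0) * v = fromBlocks Jp 0 0 Jq := by
    have hvu : (Pool.Agent.Helper96.SPN.Lm k (Fin (p + 1)) (Fin 0) * (uᵀ * fromBlocks Jp 0 0 Jq)) * u = 1 := by
      rw [Matrix.mul_assoc, hu, Lm_mul_self]
    have huv : u * (Pool.Agent.Helper96.SPN.Lm k (Fin (p + 1)) (Fin 0) * (uᵀ * fromBlocks Jp 0 0 Jq)) = 1 :=
      (Matrix.mul_eq_one_comm_of_card_eq _ _ _ hc2.symm).mp hvu
    refine ⟨Pool.Agent.Helper96.SPN.Lm k (Fin (p + 1)) (Fin 0) * (uᵀ * fromBlocks Jp 0 0 Jq), huv, ?_⟩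
    have h1 : Pool.Agent.Helper96.SPN.Lm k (Fin (p + 1)) (Fin 0) *
        (Pool.Agent.Helper96.SPN.Lm k (Fin (p + 1)) (Fin 0) * (uᵀ * fromBlocks Jp 0 0 Jq)) =
        uᵀ * fromBlocks Jp 0 0 Jq := by
      rw [← Matrix.mul_assoc, Lm_mul_self, Matrix.one_mul]
    rw [Matrix.mul_assoc, h1, ← Matrix.mul_assoc, ← transpose_mul, huv, transpose_one,
      Matrix.one_mul]
  have hvu : v * u = 1 := (Matrix.mul_eq_one_comm_of_card_eq _ _ _ hc2).mp huv
  have hiso : ∀ x : IsoG (fromBlocks Jp 0 0 Jq),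
      (isoHom _ x)ᵀ * fromBlocks Jp 0 0 Jq * isoHom _ x = fromBlocks Jp 0 0 Jq := fun x => x.2
  have hdet : ∀ x : IsoG (fromBlocks Jp 0 0 Jq), (isoHom _ x).det = 1 := fun x => x.1.2
  have hmem : ∀ i j, (fun g : IsoG (fromBlocks Jp 0 0 Jq) => isoHom _ g i j) ∈
      mAlg (isoHom (fromBlocks Jp 0 0 Jq)) := fun i j => Algebra.subset_adjoin ⟨i, j, rfl⟩
  have hymem : ∀ i j, (fun g : IsoG (fromBlocks Jp 0 0 Jq) => yy v (isoHom _ g) i j) ∈
      mAlg (isoHom (fromBlocks Jp 0 0 Jq)) := fun i j =>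
    mul_mem_alg _ (fun _ => v) (fun g => isoHom _ g * e1 k (Fin (p + 1)) (Fin (p + 1)))
      (fun _ _ => const_mem _ _)
      (mul_mem_alg _ (fun g => isoHom _ g) (fun _ => e1 k (Fin (p + 1)) (Fin (p + 1))) hmem
        (fun _ _ => const_mem _ _)) i j
  -- the open set
  have hq0 : ∀ g : IsoG (fromBlocks Jp 0 0 Jq),
      (aa v (isoHom _ g)).det * (aa v (isoHom _ g) * Jp⁻¹ * (aa v (isoHom _ g))ᵀ) 0 0 ≠ 0 ↔
      (aa v (isoHom _ g)).det ≠ 0 ∧ mn (ff v (isoHom _ g)) ≠ 0 := by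
    intro g
    constructor
    · intro h1
      have h2 := left_ne_zero_of_mul h1
      have h3 := aa_gram hv (hiso g) h2
      refine ⟨h2, ?_⟩
      rw [← q0_formula hp.det_ne h3]
      refine mul_ne_zero (right_ne_zero_of_mul h1) fun h0 => hp.det_ne ?_
      rw [← h3, det_mul, det_mul, h0, mul_zero, zero_mul]
    · rintro ⟨h2, h4⟩
      have h3 := aa_gram hv (hiso g) h2
      rw [← q0_formula hp.det_ne h3] at h4
      exact mul_ne_zero h2 (left_ne_zero_of_mul h4)
  -- the determinant of the Gram matrix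
  have hgd : ∀ g : IsoG (fromBlocks Jp 0 0 Jq), (aa v (isoHom _ g)).det ≠ 0 →
      (Sf (ff v (isoHom _ g))).det = Jp.det * ((aa v (isoHom _ g)).det)⁻¹ ^ 2 := by
    intro g h1
    have h2 := congrArg det (aa_gram hv (hiso g) h1)
    rw [det_mul, det_mul, det_transpose] at h2
    rw [← h2]
    field_simp
  -- block diagonal elements
  have hcm : ∀ x ∈ cm (isoHom (fromBlocks Jp 0 0 Jq)) (fromBlocks 1 0 0 (-1)),
      isoHom _ x = fromBlocks (isoHom _ x).toBlocks₁₁ 0 0 (isoHom _ x).toBlocks₂₂ ∧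
      (isoHom _ x).toBlocks₁₁.det ≠ 0 ∧
      ((isoHom _ x).toBlocks₁₁.det)⁻¹ = (isoHom _ x).toBlocks₁₁.det := by
    intro x hx
    have h1 := comm_blocks hx
    have h2 := hiso x
    have h3 : ((isoHom _ x).toBlocks₁₁)ᵀ * Jp * (isoHom _ x).toBlocks₁₁ = Jp := by
      rw [h1, fromBlocks_transpose, fromBlocks_multiply, fromBlocks_multiply] at h2
      have h4 := (fromBlocks_inj.mp h2).1
      simpa using h4
    refine ⟨h1, ?_, ?_⟩
    · rcases det_sq_of_isom hp.det_ne h3 with h4 | h4 <;> rw [h4]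
      · exact one_ne_zero
      · exact neg_ne_zero.mpr one_ne_zero
    · rcases det_sq_of_isom hp.det_ne h3 with h4 | h4 <;> rw [h4]
      · exact inv_one
      · rw [inv_neg, inv_one]
  have hact : ∀ x ∈ cm (isoHom (fromBlocks Jp 0 0 Jq)) (fromBlocks 1 0 0 (-1)),
      ∀ g : IsoG (fromBlocks Jp 0 0 Jq),
      (aa v (isoHom _ (g * x))).det =
        (aa v (isoHom _ g)).det * (isoHom _ x).toBlocks₁₁.det ∧
      ff v (isoHom _ (g * x)) = ff v (isoHom _ g) := by
    intro x hx g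
    obtain ⟨h1, h2, -⟩ := hcm x hx
    rw [map_mul]
    generalize isoHom (fromBlocks Jp 0 0 Jq) x = m at h1 h2 ⊢
    refine ⟨?_, ?_⟩
    · conv_lhs => rw [h1, aa_mul, det_mul]
    · conv_lhs => rw [h1]
      exact ff_mul _ _ _ h2
  -- anticommuting elements
  obtain ⟨c, hc0, hcc⟩ : ∃ c : k, c ≠ 0 ∧ ∀ g : IsoG (fromBlocks Jp 0 0 Jq),
      (aa v (isoHom _ g)).det ≠ 0 →
      (y2 v (isoHom _ g)).toRows₁.det = c * (aa v (isoHom _ g)).det := by
    exact swap_det huv hp.det_ne hv hiso hdet hgd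
  have hact2 : ∀ x : IsoG (fromBlocks Jp 0 0 Jq), fromBlocks 1 0 0 (-1) * isoHom _ x =
      -(isoHom _ x * fromBlocks 1 0 0 (-1)) → ∀ g : IsoG (fromBlocks Jp 0 0 Jq),
      (aa v (isoHom _ g)).det ≠ 0 → (isoHom _ x).toBlocks₂₁.det ≠ 0 ∧
      (aa v (isoHom _ (g * x))).det =
        c * (aa v (isoHom _ g)).det * (isoHom _ x).toBlocks₂₁.det ∧
      ff v (isoHom _ (g * x)) = tf (ff v (isoHom _ g)) := by
    intro x hx g hg
    have h1 := anti_blocks hx
    have h2 : (isoHom _ x).toBlocks₂₁.det ≠ 0 := by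
      intro h0
      have h3 := hdet x
      rw [h1, det_anti, h0, mul_zero, mul_zero] at h3
      exact zero_ne_one h3
    refine ⟨h2, ?_, ?_⟩
    · rw [map_mul]
      have h3 := hcc g hg
      generalize isoHom (fromBlocks Jp 0 0 Jq) x = m at h1 h2 ⊢
      conv_lhs => rw [h1, aa_anti, det_mul, h3]
    · rw [map_mul]
      have h3 : (y2 v (isoHom _ g)).toRows₁.det ≠ 0 := by
        rw [hcc g hg]
        exact mul_ne_zero hc0 hg
      have h4 := y2_rows hv (hiso g) hg
      generalize isoHom (fromBlocks Jp 0 0 Jq) x = m at h1 h2 ⊢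
      conv_lhs => rw [h1]
      exact ff_anti h2 h3 h4
  -- existence of points
  have hdom : ∀ z : (Fin (p + 1) ⊕ Fin 0) × Fin (p + 1) → k, z (Sum.inl 0, 0) ≠ 0 →
      mn (Matrix.of fun i j => z (i, j)) ≠ 0 →
      ∃ g : IsoG (fromBlocks Jp 0 0 Jq), (aa v (isoHom _ g)).det ≠ 0 ∧
        mn (ff v (isoHom _ g)) ≠ 0 ∧ ((aa v (isoHom _ g)).det)⁻¹ = z (Sum.inl 0, 0) ∧
        ∀ i j, ¬ (i = Sum.inl 0 ∧ j = 0) → ff v (isoHom _ g) i j = z (i, j) := by
    intro z hz hm
    generalize hF0 : (Matrix.of fun i j => z (i, j) :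
      Matrix (Fin (p + 1) ⊕ Fin 0) (Fin (p + 1)) k) = F0 at hm
    have hF0' : ∀ i j, F0 i j = z (i, j) := by
      intro i j
      rw [← hF0]
      rfl
    let m0 : k := F0 (Sum.inl 0) 0 +
      (Jp.det * z (Sum.inl 0, 0) ^ 2 - (Sf F0).det) / (2 * mn F0)
    let F : Matrix (Fin (p + 1) ⊕ Fin 0) (Fin (p + 1)) k :=
      Matrix.of fun i j => if i = Sum.inl 0 ∧ j = 0 then m0 else F0 i j
    have hF : ∀ i j, ¬ (i = Sum.inl 0 ∧ j = 0) → F i j = F0 i j := fun i j hij => if_neg hij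
    have hFc : F (Sum.inl 0) 0 = m0 := by
      show (if (Sum.inl 0 : Fin (p + 1) ⊕ Fin 0) = Sum.inl 0 ∧ (0 : Fin (p + 1)) = 0 then m0 else
        F0 (Sum.inl 0) 0) = m0
      exact if_pos ⟨rfl, rfl⟩
    have hFm : mn F = mn F0 := mn_off hF
    have hFd : (Sf F).det = Jp.det * z (Sum.inl 0, 0) ^ 2 := by
      have h1 := det_Sf_off hF
      rw [hFc, hFm] at h1
      have h2 : 2 * (m0 - F0 (Sum.inl 0) 0) * mn F0 =
          Jp.det * z (Sum.inl 0, 0) ^ 2 - (Sf F0).det := by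
        show 2 * (F0 (Sum.inl 0) 0 +
          (Jp.det * z (Sum.inl 0, 0) ^ 2 - (Sf F0).det) / (2 * mn F0) - F0 (Sum.inl 0) 0) *
          mn F0 = _
        field_simp
        ring
      rw [h2] at h1
      linear_combination h1
    have hSform : IsForm 1 (Sf F) := by
      refine ⟨Or.inl rfl, ?_, ?_⟩
      · rw [Sf_symm, one_smul]
      · rw [hFd]
        exact mul_ne_zero hp.det_ne (pow_ne_zero _ hz)
    obtain ⟨de, hde1, hde2⟩ : ∃ de : Matrix (Fin (p + 1)) (Fin (p + 1)) k,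
        deᵀ * Jp * de = Sf F ∧ de.det = z (Sum.inl 0, 0) := by
      obtain ⟨de, hde⟩ := hE (Fin (p + 1)) (Fin (p + 1)) 1 _ _ hp hSform rfl
      have h1 := congrArg det hde
      rw [det_mul, det_mul, det_transpose, hFd] at h1
      have h2 : de.det = z (Sum.inl 0, 0) ∨ de.det = -z (Sum.inl 0, 0) := by
        apply sq_eq_sq_iff_eq_or_eq_neg.mp
        apply mul_left_cancel₀ hp.det_ne
        linear_combination h1
      rcases h2 with h2 | h2
      · exact ⟨de, hde, h2⟩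
      · obtain ⟨R, hR1, hR2⟩ := hR (Fin (p + 1)) Jp hp
        refine ⟨R * de, ?_, ?_⟩
        · calc (R * de)ᵀ * Jp * (R * de) = deᵀ * (Rᵀ * Jp * R) * de := by
                rw [transpose_mul]; simp only [Matrix.mul_assoc]
            _ = Sf F := by rw [hR1, hde]
        · rw [det_mul, hR2, h2]
          ring
    have hdu : IsUnit de.det := by
      rw [hde2]; exact isUnit_iff_ne_zero.mpr hz
    have hal : (de⁻¹)ᵀ * Sf F * de⁻¹ = Jp := by
      have h1 : (de⁻¹)ᵀ * deᵀ = 1 := by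
        rw [← transpose_mul, mul_nonsing_inv _ hdu, transpose_one]
      calc (de⁻¹)ᵀ * Sf F * de⁻¹ = ((de⁻¹)ᵀ * deᵀ) * Jp * (de * de⁻¹) := by
            rw [← hde1]; simp only [Matrix.mul_assoc]
        _ = Jp := by rw [h1, mul_nonsing_inv _ hdu, Matrix.one_mul, Matrix.mul_one]
    obtain ⟨g, hg⟩ := ext_isom hE hR hp hq hc hu F de⁻¹ hal
    have hyg : yy v (isoHom _ g) = gr F * de⁻¹ := by
      show v * (isoHom _ g * e1 k _ _) = _
      rw [hg, ← Matrix.mul_assoc, hvu, Matrix.one_mul]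
    have hag : aa v (isoHom _ g) = de⁻¹ := by
      show (yy v (isoHom _ g)).toRows₁ = _
      rw [hyg, gr_mul, toRows₁_fromRows]
    have hdi : (de⁻¹).det = (z (Sum.inl 0, 0))⁻¹ := by
      rw [det_nonsing_inv, Ring.inverse_eq_inv', hde2]
    have had : (aa v (isoHom _ g)).det = (z (Sum.inl 0, 0))⁻¹ := by rw [hag, hdi]
    have hfg : ff v (isoHom _ g) = F := by
      show (yy v (isoHom _ g)).toRows₂ * (aa v (isoHom _ g))⁻¹ = _
      rw [hyg, gr_mul, toRows₂_fromRows, hag, Matrix.mul_assoc, mul_nonsing_inv, Matrix.mul_one]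
      rw [hdi]
      exact isUnit_iff_ne_zero.mpr (inv_ne_zero hz)
    refine ⟨g, ?_, ?_, ?_, ?_⟩
    · rw [had]
      exact inv_ne_zero hz
    · rw [hfg, hFm]
      exact hm
    · rw [had, inv_inv]
    · intro i j hij
      rw [hfg, hF i j hij, hF0']
  -- the minor as a polynomial
  let Fg : Matrix (Fin (p + 1) ⊕ Fin 0) (Fin (p + 1))
    (MvPolynomial ((Fin (p + 1) ⊕ Fin 0) × Fin (p + 1)) k) := Matrix.of fun i j => X (i, j)
  have hev : ∀ z : (Fin (p + 1) ⊕ Fin 0) × Fin (p + 1) → k, eval z (mn Fg) =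
      mn (Matrix.of fun i j => z (i, j)) := by
    intro z
    unfold mn
    rw [RingHom.map_det]
    congr 1
    ext i j
    have e3 : ∀ a c, eval z (Fg a c) = z (a, c) := fun a c => eval_X _
    show eval z (Sf Fg i.succ j.succ) = Sf (Matrix.of fun i j => z (i, j)) i.succ j.succ
    rw [Sf_apply, Sf_apply]
    simp only [map_add, map_sum, map_mul, e3, Matrix.of_apply]
  have hmn0 : mn Fg ≠ 0 := by
    intro h0
    have h1 := hev fun s => Sum.elim (fun i => if i = s.2 then (2 : k)⁻¹ else 0) (fun _ => 0) s.1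
    rw [h0, map_zero] at h1
    have h2 : mn (Matrix.of fun (i : Fin (p + 1) ⊕ Fin 0) (j : Fin (p + 1)) =>
        Sum.elim (fun i => if i = j then (2 : k)⁻¹ else 0) (fun _ => 0) i) = 1 := by
      unfold mn
      have h3 : (Sf (Matrix.of fun (i : Fin (p + 1) ⊕ Fin 0) (j : Fin (p + 1)) =>
          Sum.elim (fun i => if i = j then (2 : k)⁻¹ else 0) (fun _ => 0) i)).submatrix
          Fin.succ Fin.succ = 1 := by
        ext i j
        show Sf _ i.succ j.succ = _
        rw [Sf_apply]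
        simp only [Matrix.of_apply, Sum.elim_inl, Sum.elim_inr, mul_zero, Finset.sum_const_zero,
          add_zero, Fin.succ_inj]
        by_cases hij : i = j
        · subst hij
          rw [if_pos rfl, Matrix.one_apply_eq]
          field_simp
          norm_num
        · rw [if_neg hij, if_neg (Ne.symm hij), Matrix.one_apply_ne hij, add_zero]
      rw [h3, det_one]
    exact zero_ne_one (h1.trans h2)
  have hdom2 : ∀ P : MvPolynomial ((Fin (p + 1) ⊕ Fin 0) × Fin (p + 1)) k, P ≠ 0 →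
      ∃ g : IsoG (fromBlocks Jp 0 0 Jq), (aa v (isoHom _ g)).det ≠ 0 ∧
        mn (ff v (isoHom _ g)) ≠ 0 ∧
        eval (fun j => if j.1 = Sum.inl 0 ∧ j.2 = 0 then ((aa v (isoHom _ g)).det)⁻¹ else
          ff v (isoHom _ g) j.1 j.2) P ≠ 0 := by
    intro P hP
    obtain ⟨z, hz⟩ : ∃ z, eval z (P * (mn Fg * X (Sum.inl 0, 0))) ≠ 0 := by
      by_contra hcon
      push Not at hcon
      exact mul_ne_zero hP (mul_ne_zero hmn0 (X_ne_zero _))
        (MvPolynomial.funext fun z => by rw [hcon z, map_zero])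
    rw [map_mul, map_mul, eval_X, hev] at hz
    have h1 := right_ne_zero_of_mul hz
    obtain ⟨g, hg1, hg2, hg3, hg4⟩ := hdom z (right_ne_zero_of_mul h1) (left_ne_zero_of_mul h1)
    refine ⟨g, hg1, hg2, ?_⟩
    have h2 : (fun j : (Fin (p + 1) ⊕ Fin 0) × Fin (p + 1) => if j.1 = Sum.inl 0 ∧ j.2 = 0 then
        ((aa v (isoHom _ g)).det)⁻¹ else ff v (isoHom _ g) j.1 j.2) = z := by
      funext j
      obtain ⟨i, j⟩ := j
      by_cases hij : i = Sum.inl 0 ∧ j = 0
      · rw [if_pos hij, hg3, hij.1, hij.2]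
      · rw [if_neg hij]
        exact hg4 i j hij
    rw [h2]
    exact left_ne_zero_of_mul hz
  refine ⟨(Fin (p + 1) ⊕ Fin 0) × Fin (p + 1), inferInstance, inferInstance, ⟨?_⟩⟩
  exact
    { hH := (cm0_le _ _ _ _).trans (cm_le_cmm _ _)
      q0 := fun g => (aa v (isoHom _ g)).det *
        (aa v (isoHom _ g) * Jp⁻¹ * (aa v (isoHom _ g))ᵀ) 0 0
      q0_mem := by
        refine mul_mem (det_mem_alg _ _ fun i j => hymem _ _) ?_
        exact mul_mem_alg _ (fun g => aa v (isoHom _ g) * Jp⁻¹)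
          (fun g => (aa v (isoHom _ g))ᵀ)
          (mul_mem_alg _ (fun g => aa v (isoHom _ g)) (fun _ => Jp⁻¹) (fun _ _ => hymem _ _)
            (fun _ _ => const_mem _ _)) (fun _ _ => hymem _ _) 0 0
      q0_ne := by
        intro h0
        obtain ⟨g, hg1, hg2, -⟩ := hdom2 1 one_ne_zero
        exact (hq0 g).mpr ⟨hg1, hg2⟩ (congrFun h0 g)
      t := fun g j => if j.1 = Sum.inl 0 ∧ j.2 = 0 then ((aa v (isoHom _ g)).det)⁻¹ else
        ff v (isoHom _ g) j.1 j.2
      treg := by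
        intro j
        by_cases hj : j.1 = Sum.inl 0 ∧ j.2 = 0
        · simp only [if_pos hj]
          exact inv_mem_RegU (det_mem_alg _ _ fun i j => hymem _ _) fun g hg => ((hq0 g).mp hg).1
        · simp only [if_neg hj]
          refine mul_mem_alg _ _ _ (fun i l => le_RegU _ _ (hymem _ _)) (fun i l => ?_) _ _
          exact nonsing_inv_mem_RegU _ (fun i l => le_RegU _ _ (hymem _ _))
            (fun g hg => ((hq0 g).mp hg).1) i l
      sep := by
        intro g g' hg hg' ht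
        obtain ⟨hg1, hg2⟩ := (hq0 g).mp hg
        obtain ⟨hg1', hg2'⟩ := (hq0 g').mp hg'
        have ht1 : ((aa v (isoHom _ g)).det)⁻¹ = ((aa v (isoHom _ g')).det)⁻¹ := by
          have h1 := congrFun ht (Sum.inl 0, 0)
          simpa using h1
        have ht2 : ∀ i j, ¬ (i = Sum.inl 0 ∧ j = 0) →
            ff v (isoHom _ g') i j = ff v (isoHom _ g) i j := by
          intro i j hij
          have h1 := congrFun ht (i, j)
          simp only [if_neg hij] at h1
          exact h1.symm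
        have hfc : ff v (isoHom _ g') (Sum.inl 0) 0 = ff v (isoHom _ g) (Sum.inl 0) 0 := by
          have h1 := det_Sf_off ht2
          rw [hgd g hg1, hgd g' hg1', ht1, sub_self] at h1
          have h2 := (mul_eq_zero.mp h1.symm).resolve_right hg2'
          exact sub_eq_zero.mp ((mul_eq_zero.mp h2).resolve_left two_ne_zero)
        have hff : ff v (isoHom _ g') = ff v (isoHom _ g) := by
          ext i j
          by_cases hij : i = Sum.inl 0 ∧ j = 0
          · rw [hij.1, hij.2]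
            exact hfc
          · exact ht2 i j hij
        refine ⟨g⁻¹ * g', ?_, by rw [mul_inv_cancel_left]⟩
        have hxm : isoHom _ g' = isoHom _ g * isoHom _ (g⁻¹ * g') := by
          rw [← map_mul, mul_inv_cancel_left]
        have hm := hiso (g⁻¹ * g')
        rw [mem_cm0]
        rw [hxm] at hff hg1' ht1
        obtain ⟨h21, h11⟩ := sep_aux huv (hdet g) hg1 hg1' hff
        have hd : (isoHom _ (g⁻¹ * g')).toBlocks₁₁.det = 1 := by
          rw [h11, det_mul, det_nonsing_inv, Ring.inverse_eq_inv', inv_injective ht1,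
            inv_mul_cancel₀ hg1']
        have hb := isom_blocks hp.det_ne hm h21
        refine ⟨?_, ?_⟩
        · rw [hb]
          exact blocks_comm _ _
        · rw [hb, proj_det, hd]
      dom := by
        intro P hP
        obtain ⟨g, hg1, hg2, hg3⟩ := hdom2 P hP
        exact ⟨g, (hq0 g).mpr ⟨hg1, hg2⟩, hg3⟩
      inv := by
        intro x hx g hg j
        have hx1 := cm0_le _ _ _ _ hx
        obtain ⟨h1, h2, -⟩ := hcm x hx1
        obtain ⟨h3, h4⟩ := hact x hx1 g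
        have h5 : (isoHom _ x).toBlocks₁₁.det = 1 := by
          have h6 := (mem_cm0.mp hx).2
          rw [h1, proj_det] at h6
          exact h6
        rw [h3, h4, h5, mul_one]
      equiv := by
        intro x hx
        rcases hx with hx | hx
        · obtain ⟨h1, h2, h2'⟩ := hcm x hx
          refine ⟨diagonal fun j => if j.1 = Sum.inl 0 ∧ j.2 = 0 then
            (isoHom _ x).toBlocks₁₁.det else 1, fun g hg => ?_⟩
          obtain ⟨hg1, hg2⟩ := (hq0 g).mp hg
          obtain ⟨h3, h4⟩ := hact x hx g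
          refine ⟨(hq0 _).mpr ⟨?_, ?_⟩, fun j => ?_⟩
          · rw [h3]
            exact mul_ne_zero hg1 h2
          · rw [h4]
            exact hg2
          · rw [Finset.sum_eq_single j]
            · rw [diagonal_apply_eq, h3, h4]
              by_cases hj : j.1 = Sum.inl 0 ∧ j.2 = 0
              · rw [if_pos hj, if_pos hj, if_pos hj, mul_inv, h2', mul_comm]
              · rw [if_neg hj, if_neg hj, if_neg hj, one_mul]
            · intro l _ hl
              rw [diagonal_apply_ne _ hl.symm, zero_mul]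
            · intro hl
              exact absurd (Finset.mem_univ _) hl
        · refine ⟨Matrix.of fun j l => if j.1 = Sum.inl 0 ∧ j.2 = 0 then
            (if l = j then (c * (isoHom _ x).toBlocks₂₁.det)⁻¹ else 0) else
            (if l = tj j then -1 else 0), fun g hg => ?_⟩
          obtain ⟨hg1, hg2⟩ := (hq0 g).mp hg
          obtain ⟨h2, h3, h4⟩ := hact2 x hx g hg1
          refine ⟨(hq0 _).mpr ⟨?_, ?_⟩, fun j => ?_⟩
          · rw [h3]
            exact mul_ne_zero (mul_ne_zero hc0 hg1) h2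
          · rw [h4]
            exact mn_tf hg2
          · simp only [Matrix.of_apply]
            by_cases hj : j.1 = Sum.inl 0 ∧ j.2 = 0
            · simp only [if_pos hj, ite_mul, zero_mul, Finset.sum_ite_eq', Finset.mem_univ,
                if_true]
              rw [h3, ← mul_inv]
              congr 1
              ring
            · have hj' : ¬ ((tj j).1 = Sum.inl 0 ∧ (tj j).2 = 0) := fun h => hj (tj_corner h)
              simp only [if_neg hj, ite_mul, zero_mul, Finset.sum_ite_eq', Finset.mem_univ,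
                if_true, if_neg hj']
              rw [h4, tf_apply]
              ring }

omit [IsAlgClosed k] [CharZero k] in
lemma ow1_zero (Jp Jq : Matrix (Fin 0) (Fin 0) k)
    (h : Proj (fromBlocks 1 0 0 (-1) : Matrix (Fin 0 ⊕ Fin 0) (Fin 0 ⊕ Fin 0) k)
    (fromBlocks 1 0 0 0)) :
    HC1 (isoHom (fromBlocks Jp 0 0 Jq)) (fromBlocks 1 0 0 (-1)) (fromBlocks 1 0 0 0) h := by
  have hall : ∀ g : IsoG (fromBlocks Jp 0 0 Jq),
      g ∈ cm0 (isoHom (fromBlocks Jp 0 0 Jq)) (fromBlocks 1 0 0 (-1)) (fromBlocks 1 0 0 0) h := by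
    intro g
    rw [mem_cm0]
    refine ⟨Subsingleton.elim _ _, det_isEmpty⟩
  refine ⟨Fin 0, inferInstance, inferInstance, ⟨?_⟩⟩
  exact
    { hH := (cm0_le _ _ _ _).trans (cm_le_cmm _ _)
      q0 := 1
      q0_mem := one_mem _
      q0_ne := one_ne_zero
      t := fun _ _ => 0
      treg := fun j => j.elim0
      sep := fun g g' _ _ _ => ⟨g⁻¹ * g', hall _, by rw [mul_inv_cancel_left]⟩
      dom := by
        intro P hP
        refine ⟨1, one_ne_zero, ?_⟩
        rw [P.eq_C_of_isEmpty] at hP ⊢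
        rw [eval_C]
        intro h0
        exact hP (by rw [h0, map_zero])
      inv := fun _ _ _ _ j => j.elim0
      equiv := fun _ _ => ⟨0, fun _ _ => ⟨one_ne_zero, fun j => j.elim0⟩⟩ }

end Main

end Pool.Agent.Helper97.SPN.Ev

namespace Pool.Agent.Helper97.SPN

open Matrix Pool.Agent.Helper97.CG

universe u

/-- OW1: the oriented `p`-planes of a space of dimension `2p`, with the swap. -/
def ST_OW1 (k : Type u) [Field k] : Prop := ∀ (p : ℕ) (Jp Jq : Matrix (Fin p) (Fin p) k)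
  (h : Proj (fromBlocks 1 0 0 (-1) : Matrix (Fin p ⊕ Fin p) (Fin p ⊕ Fin p) k)
    (fromBlocks 1 0 0 0)), IsForm 1 Jp → IsForm 1 Jq →
  HC1 (isoHom (fromBlocks Jp 0 0 Jq)) (fromBlocks 1 0 0 (-1)) (fromBlocks 1 0 0 0) h

theorem st_OW1 {k : Type u} [Field k] [IsAlgClosed k] [CharZero k] (hE : ST_EQV k)
    (hR : ST_REFL k) : ST_OW1 k := by
  intro p Jp Jq h hp hq
  rcases p with _ | p
  · exact Ev.ow1_zero Jp Jq h
  · exact Ev.ow1_succ hE hR p Jp Jq h hp hq

end Pool.Agent.Helper97.SPN
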